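import Pool.Agent.Q213.NSP

/-!
# Groups all of whose characters are represented by coordinates on countable sets
-/

set_option autoImplicit false

open Set Topology Filter
open Cardinal hiding univ

namespace Pool.Agent.Q213.PN

open Pool.Agent.Q213.NSP (pval exists_pcode)

/-- The circle group. -/
abbrev T : Type := AddCircle (1 : ℝ)

theorem mk_T_le : #T ≤ 𝔠 := by
  have h : Function.Surjective (fun x : ℝ => (x : T)) := QuotientAddGroup.mk_surjective
  have h1 := mk_le_of_surjective h
  rwa [mk_real] at h1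

theorem mk_seq' {A B : Type} [Nonempty B] (hA : #A = 𝔠) (hB : #B ≤ 𝔠) : #(ℕ → A × B) = 𝔠 := by
  have h1 : #(A × B) = 𝔠 := by
    rw [mk_prod, lift_id, lift_id, hA]
    refine le_antisymm ?_ ?_
    · refine (mul_le_mul' le_rfl hB).trans ?_
      rw [continuum_mul_self]
    · have h2 : #B ≠ 0 := mk_ne_zero _
      exact Cardinal.le_mul_right h2
  rw [← power_def, h1, mk_nat, continuum_power_aleph0]

section

variable (R : Type) [AddCommGroup R] [Countable R]

theorem mk_hom_le : #(R →+ T) ≤ 𝔠 := by
  have h1 : #(R →+ T) ≤ #(R → T) := mk_le_of_injective DFunLike.coe_injective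
  refine h1.trans ?_
  rw [← power_def]
  calc #T ^ #R ≤ 𝔠 ^ #R := Cardinal.power_le_power_right mk_T_le
    _ ≤ 𝔠 ^ ℵ₀ := Cardinal.power_le_power_left continuum_ne_zero mk_le_aleph0
    _ = 𝔠 := continuum_power_aleph0

/-- The group. -/
abbrev V : Type := ℝ →₀ R

/-- The indices of the coordinates. -/
abbrev J : Type := ℕ → ℝ × (R →+ T)

omit [Countable R] in
theorem mk_J_eq [Countable R] : #(J R) = 𝔠 := mk_seq' mk_real (mk_hom_le R)

theorem exists_equiv : Nonempty (ℝ ≃ (ℕ → J R × (R →+ T)) × ℝ) := by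
  refine Cardinal.eq.1 ?_
  rw [mk_real, mk_prod, lift_id, lift_id, mk_seq' (mk_J_eq R) (mk_hom_le R), mk_real,
    continuum_mul_self]

/-- A bijection between the basis and the pairs of a task and a real number. -/
noncomputable def ε : ℝ ≃ (ℕ → J R × (R →+ T)) × ℝ := (exists_equiv R).some

open Classical in
/-- The value at the basis vector `ξ` of the coordinate `α`. -/
noncomputable def c (α : J R) (ξ : ℝ) : R →+ T :=
  if ξ ∈ range (fun n => (α n).1) then pval α ξ else pval (ε R ξ).1 α

/-- The coordinate characters. -/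
noncomputable def χ (α : J R) : V R →+ T := Finsupp.liftAddHom (c R α)

theorem χ_single (α : J R) (ξ : ℝ) (r : R) : χ R α (Finsupp.single ξ r) = c R α ξ r :=
  Finsupp.liftAddHom_apply_single _ _ _

/-- Every assignment of values to countably many coordinates is realized. -/
theorem exists_vec (n : ℕ) (u : R) (hu : ∀ t : T, n • t = 0 → ∃ σ : R →+ T, σ u = t)
    {N : Set (J R)} (hN : N.Countable) (y : J R → T) (hy : ∀ α, n • y α = 0) :
    ∃ v : V R, ∀ α ∈ N, χ R α v = y α := by
  classical
  rcases N.eq_empty_or_nonempty with rfl | hne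
  · exact ⟨0, fun α hα => absurd hα (notMem_empty α)⟩
  choose s hs using fun α => hu (y α) (hy α)
  obtain ⟨t, ht1, ht2⟩ := exists_pcode hN hne s
  have hcount : (⋃ α ∈ N, range (fun n => (α n).1) : Set ℝ).Countable :=
    hN.biUnion fun α _ => countable_range _
  obtain ⟨r, hr⟩ : ∃ r : ℝ, (ε R).symm (t, r) ∉ (⋃ α ∈ N, range (fun n => (α n).1) : Set ℝ) := by
    by_contra! h
    have h1 : (univ : Set ℝ) ⊆ (fun r => (ε R).symm (t, r)) ⁻¹'
        (⋃ α ∈ N, range (fun n => (α n).1)) := fun r _ => h r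
    have h2 : ((fun r => (ε R).symm (t, r)) ⁻¹'
        (⋃ α ∈ N, range (fun n => (α n).1))).Countable := by
      refine hcount.preimage_of_injOn ?_
      intro a _ b _ hab
      have := (ε R).symm.injective hab
      simpa using this
    exact Cardinal.not_countable_real (h2.mono h1)
  refine ⟨Finsupp.single ((ε R).symm (t, r)) u, fun α hα => ?_⟩
  have h1 : (ε R).symm (t, r) ∉ range (fun n => (α n).1) := fun h =>
    hr (mem_iUnion₂.2 ⟨α, hα, h⟩)
  rw [χ_single, c, if_neg h1, Equiv.apply_symm_apply]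
  show (pval t α) u = y α
  rw [ht2 α hα, hs]

/-- Every character is represented by a coordinate on every countable set. -/
theorem exists_coord {C : Set (V R)} (hC : C.Countable) (φ : V R →+ T) :
    ∃ α, ∀ v ∈ C, χ R α v = φ v := by
  classical
  let S : Set ℝ := ⋃ v ∈ C, (v.support : Set ℝ)
  have hS : S.Countable := hC.biUnion fun v _ => v.support.countable_toSet
  rcases S.eq_empty_or_nonempty with h | hne
  · refine ⟨fun _ => (0, 0), fun v hv => ?_⟩
    have h1 : v = 0 := by
      rw [← Finsupp.support_eq_empty, ← Finset.coe_eq_empty, ← subset_empty_iff, ← h]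
      exact subset_biUnion_of_mem (u := fun v : V R => (v.support : Set ℝ)) hv
    rw [h1, map_zero, map_zero]
  · obtain ⟨α, hα1, hα2⟩ := exists_pcode hS hne fun ξ => φ.comp (Finsupp.singleAddHom ξ)
    refine ⟨α, fun v hv => ?_⟩
    conv_lhs => rw [← Finsupp.sum_single v]
    conv_rhs => rw [← Finsupp.sum_single v]
    rw [Finsupp.sum, map_sum, map_sum]
    refine Finset.sum_congr rfl fun ξ hξ => ?_
    have hξS : ξ ∈ S := mem_iUnion₂.2 ⟨v, hv, hξ⟩
    have h1 : ξ ∈ range (fun n => (α n).1) := by rw [hα1]; exact hξS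
    rw [χ_single, c, if_pos h1, hα2 ξ hξS]
    rfl

theorem exists_seq : ∃ α : ℕ → J R, Function.Injective α :=
  ⟨fun n _ => ((n : ℝ), 0), fun m n h => by simpa using congrFun h 0⟩

theorem mk_V_le : #(V R) ≤ 𝔠 := by
  rcases subsingleton_or_nontrivial R with h | h
  · have h1 : #(V R) ≤ 1 := Cardinal.le_one_iff_subsingleton.2 inferInstance
    exact h1.trans (Cardinal.one_le_aleph0.trans aleph0_le_continuum)
  · rw [Cardinal.mk_finsupp_of_infinite ℝ R, mk_real]
    exact max_le le_rfl (mk_le_aleph0.trans aleph0_le_continuum)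

end

/-- The rational case: characters of `ℚ` take every value at `1`. -/
theorem exists_hom_rat (t : T) : ∃ σ : ℚ →+ T, σ 1 = t := by
  obtain ⟨r, rfl⟩ := QuotientAddGroup.mk_surjective t
  refine ⟨(QuotientAddGroup.mk' _).comp
    ((AddMonoidHom.mulLeft r).comp (Rat.castHom ℝ).toAddMonoidHom), ?_⟩
  simp

/-- The finite cyclic case. -/
theorem exists_hom_zmod (q : ℕ) (t : T) (ht : q • t = 0) : ∃ σ : ZMod q →+ T, σ 1 = t := by
  refine ⟨ZMod.lift q ⟨zmultiplesHom T t, by simpa using ht⟩, ?_⟩
  have h := ZMod.lift_coe q ⟨zmultiplesHom T t, by simpa using ht⟩ 1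
  simpa using h

end Pool.Agent.Q213.PN
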