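import Pool.Agent.Q213.PN.A

/-!
# Spaces with a continuous surjection onto the group are not selectively pseudocompact
-/

set_option autoImplicit false

open Set Topology Filter
open Cardinal hiding univ

universe u

namespace Pool.Agent.Q213.PN

/-- Every continuous real function is bounded. -/
def Pseudocompact (X : Type u) [TopologicalSpace X] : Prop :=
  ∀ f : X → ℝ, Continuous f → ∃ M : ℝ, ∀ x, |f x| ≤ M

/-- For every sequence of nonempty open sets `U n` there are points `x n ∈ U n` such that the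
sequence `x` has an accumulation point. -/
def SelectivelyPseudocompact (X : Type u) [TopologicalSpace X] : Prop :=
  ∀ U : ℕ → Set X, (∀ n, IsOpen (U n) ∧ (U n).Nonempty) →
    ∃ x : ℕ → X, (∀ n, x n ∈ U n) ∧
      ∃ a : X, ∀ O : Set X, IsOpen O → a ∈ O → {n | x n ∈ O}.Infinite

/-- Backward greedy choice of a subset. -/
theorem greedy (N : ℕ) (δ : ℝ) (b : ℕ → ℕ → T) (a : T) (ha : ‖a‖ = δ)
    (hb : ∀ k, ‖b k k - a‖ < δ / 8) (m d : ℕ) (hmd : m + d = N + 1) :
    ∃ S : Finset ℕ, (∀ i ∈ S, m ≤ i ∧ i ≤ N) ∧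
      ∀ k, m ≤ k → k ≤ N → 3 * δ / 8 ≤ ‖∑ i ∈ S.filter (k ≤ ·), b i k‖ := by
  classical
  induction d generalizing m with
  | zero =>
    refine ⟨∅, by simp, fun k h1 h2 => ?_⟩
    omega
  | succ d ih =>
    obtain ⟨S, hS1, hS2⟩ := ih (m + 1) (by omega)
    by_cases h : 3 * δ / 8 ≤ ‖∑ i ∈ S, b i m‖
    · refine ⟨S, fun i hi => ⟨(Nat.le_succ m).trans (hS1 i hi).1, (hS1 i hi).2⟩,
        fun k hk1 hk2 => ?_⟩
      rcases hk1.eq_or_lt with rfl | hlt
      · have h1 : S.filter (m ≤ ·) = S := by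
          refine Finset.filter_true_of_mem fun i hi => ?_
          exact (Nat.le_succ m).trans (hS1 i hi).1
        rw [h1]
        exact h
      · exact hS2 k hlt hk2
    · have hmS : m ∉ S := fun hm => by
        have := (hS1 m hm).1
        omega
      refine ⟨insert m S, ?_, fun k hk1 hk2 => ?_⟩
      · intro i hi
        rcases Finset.mem_insert.1 hi with rfl | hi
        · exact ⟨le_refl _, by omega⟩
        · exact ⟨(Nat.le_succ m).trans (hS1 i hi).1, (hS1 i hi).2⟩
      rcases hk1.eq_or_lt with rfl | hlt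
      · have h1 : (insert m S).filter (m ≤ ·) = insert m S := by
          refine Finset.filter_true_of_mem fun i hi => ?_
          rcases Finset.mem_insert.1 hi with rfl | hi
          · exact le_refl _
          · exact (Nat.le_succ m).trans (hS1 i hi).1
        rw [h1, Finset.sum_insert hmS]
        have h2 := not_le.1 h
        have h3 := hb m
        have h4 : a = (b m m + ∑ i ∈ S, b i m) - (∑ i ∈ S, b i m) - (b m m - a) := by abel
        have h5 : ‖a‖ ≤ ‖b m m + ∑ i ∈ S, b i m‖ + ‖∑ i ∈ S, b i m‖ + ‖b m m - a‖ := by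
          calc ‖a‖ = ‖(b m m + ∑ i ∈ S, b i m) - (∑ i ∈ S, b i m) - (b m m - a)‖ :=
                congrArg _ h4
            _ ≤ _ := (norm_sub_le _ _).trans (add_le_add (norm_sub_le _ _) le_rfl)
        have h6 := norm_nonneg a
        rw [ha] at h5 h6
        linarith
      · have h1 : (insert m S).filter (k ≤ ·) = S.filter (k ≤ ·) := by
          rw [Finset.filter_insert, if_neg (by omega)]
        rw [h1]
        exact hS2 k hlt hk2

theorem not_selectively {X : Type u} [TopologicalSpace X] (R : Type) [AddCommGroup R] [Countable R]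
    (n : ℕ) (r : R) (hr : ∀ t : T, n • t = 0 → ∃ σ : R →+ T, σ r = t) (a : T) (ha : a ≠ 0)
    (hna : n • a = 0) (π : X → V R) (hπ : Function.Surjective π)
    (hc : ∀ α, Continuous fun x => χ R α (π x)) : ¬ SelectivelyPseudocompact X := by
  classical
  intro hsel
  obtain ⟨α, hα⟩ := exists_seq R
  set δ : ℝ := ‖a‖ with hδdef
  have hδ : 0 < δ := norm_pos_iff.2 ha
  have hpos : ∀ k : ℕ, 0 < δ / (8 * ((k : ℝ) + 1)) := fun k => by positivity
  let U : ℕ → Set X := fun k =>
    {x | ‖χ R (α k) (π x) - a‖ < δ / 8 ∧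
      ∀ i < k, ‖χ R (α i) (π x)‖ < δ / (8 * ((k : ℝ) + 1))}
  have hU : ∀ k, IsOpen (U k) ∧ (U k).Nonempty := by
    intro k
    constructor
    · have h1 : U k = {x | ‖χ R (α k) (π x) - a‖ < δ / 8} ∩
          ⋂ i ∈ Finset.range k, {x | ‖χ R (α i) (π x)‖ < δ / (8 * ((k : ℝ) + 1))} := by
        ext x
        simp [U]
      rw [h1]
      refine IsOpen.inter ?_ ?_
      · exact isOpen_lt (((hc _).sub continuous_const).norm) continuous_const
      · exact isOpen_biInter_finset fun i _ => isOpen_lt (hc _).norm continuous_const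
    · obtain ⟨v, hv⟩ := exists_vec R n r hr ((finite_le_nat k).countable.image α)
        (fun β => if β = α k then a else 0) (fun β => by
          split_ifs
          · exact hna
          · simp)
      obtain ⟨x, rfl⟩ := hπ v
      refine ⟨x, ?_, fun i hi => ?_⟩
      · rw [hv _ ⟨k, le_refl k, rfl⟩, if_pos rfl, sub_self, norm_zero]
        linarith
      · rw [hv _ ⟨i, hi.le, rfl⟩, if_neg fun h => hi.ne (hα h), norm_zero]
        exact hpos k
  obtain ⟨x, hx, h, hacc⟩ := hsel U hU
  -- the coordinates of the accumulation point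
  have hh : ∀ i, χ R (α i) (π h) = 0 := by
    intro i
    by_contra hne
    have hρ : 0 < ‖χ R (α i) (π h)‖ := norm_pos_iff.2 hne
    set ρ := ‖χ R (α i) (π h)‖ with hρdef
    have hinf := hacc {y | ρ / 2 < ‖χ R (α i) (π y)‖}
      (isOpen_lt continuous_const (hc (α i)).norm) (by
        show ρ / 2 < ‖χ R (α i) (π h)‖
        linarith)
    obtain ⟨K, hK⟩ := exists_nat_gt (δ / ρ)
    obtain ⟨k, hk1, hk2⟩ := hinf.exists_gt (max i K)
    have h1 : ρ / 2 < ‖χ R (α i) (π (x k))‖ := hk1
    have h2 := (hx k).2 i ((le_max_left _ _).trans_lt hk2)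
    have h3 : (K : ℝ) < k := by exact_mod_cast (le_max_right i K).trans_lt hk2
    have h4 : δ < ρ * k := by
      rw [div_lt_iff₀ hρ] at hK
      nlinarith
    have h5 : δ / (8 * ((k : ℝ) + 1)) ≤ ρ / 2 := by
      rw [div_le_iff₀ (by positivity)]
      nlinarith
    linarith
  -- finite approximations
  have hfin : ∀ N : ℕ, ∃ φ : V R →+ T, φ (π h) = 0 ∧
      ∀ k ≤ N, δ / 4 ≤ ‖φ (π (x k))‖ := by
    intro N
    obtain ⟨S, hS1, hS2⟩ := greedy N δ (fun i k => χ R (α i) (π (x k))) a rfl
      (fun k => (hx k).1) 0 (N + 1) (by omega)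
    refine ⟨∑ i ∈ S, χ R (α i), ?_, fun k hk => ?_⟩
    · rw [AddMonoidHom.finsetSum_apply]
      exact Finset.sum_eq_zero fun i _ => hh i
    · rw [AddMonoidHom.finsetSum_apply, ← Finset.sum_filter_add_sum_filter_not S (k ≤ ·)]
      have h1 := hS2 k (Nat.zero_le _) hk
      have h2 : ‖∑ i ∈ S.filter (¬ k ≤ ·), χ R (α i) (π (x k))‖ ≤ δ / 8 := by
        have h3 : ‖∑ i ∈ S.filter (¬ k ≤ ·), χ R (α i) (π (x k))‖ ≤
            ∑ i ∈ S.filter (¬ k ≤ ·), δ / (8 * ((k : ℝ) + 1)) := by
          refine (norm_sum_le _ _).trans (Finset.sum_le_sum fun i hi => ?_)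
          have h4 : i < k := not_le.1 (Finset.mem_filter.1 hi).2
          exact ((hx k).2 i h4).le
        refine h3.trans ?_
        rw [Finset.sum_const, nsmul_eq_mul]
        have h5 : ((S.filter (¬ k ≤ ·)).card : ℝ) ≤ k := by
          have h6 : S.filter (¬ k ≤ ·) ⊆ Finset.range k := fun i hi =>
            Finset.mem_range.2 (not_le.1 (Finset.mem_filter.1 hi).2)
          have := Finset.card_le_card h6
          rw [Finset.card_range] at this
          exact_mod_cast this
        have h7 := hpos k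
        calc ((S.filter (¬ k ≤ ·)).card : ℝ) * (δ / (8 * ((k : ℝ) + 1)))
            ≤ k * (δ / (8 * ((k : ℝ) + 1))) := mul_le_mul_of_nonneg_right h5 h7.le
          _ ≤ ((k : ℝ) + 1) * (δ / (8 * ((k : ℝ) + 1))) := by nlinarith
          _ = δ / 8 := by field_simp
      set A := ∑ i ∈ S.filter (k ≤ ·), χ R (α i) (π (x k)) with hA
      set B := ∑ i ∈ S.filter (¬ k ≤ ·), χ R (α i) (π (x k)) with hB
      have h3 : ‖A‖ ≤ ‖A + B‖ + ‖B‖ := by
        have h4 : A = (A + B) - B := by abel
        calc ‖A‖ = ‖(A + B) - B‖ := congrArg _ h4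
          _ ≤ _ := norm_sub_le _ _
      linarith
  -- a limit
  let K : ℕ → Set (V R → T) := fun N =>
    {g | (∀ v w, g (v + w) = g v + g w) ∧ g (π h) = 0 ∧ ∀ k ≤ N, δ / 4 ≤ ‖g (π (x k))‖}
  have hKcl : ∀ N, IsClosed (K N) := by
    intro N
    have h1 : K N = (⋂ (v : V R) (w : V R), {g : V R → T | g (v + w) = g v + g w}) ∩
        ({g : V R → T | g (π h) = 0} ∩
          ⋂ (k : ℕ) (_ : k ≤ N), {g : V R → T | δ / 4 ≤ ‖g (π (x k))‖}) := by
      ext g
      simp [K]
    rw [h1]
    refine IsClosed.inter ?_ (IsClosed.inter ?_ ?_)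
    · exact isClosed_iInter fun v => isClosed_iInter fun w =>
        isClosed_eq (by fun_prop) (by fun_prop)
    · exact isClosed_eq (continuous_apply _) continuous_const
    · exact isClosed_iInter fun k => isClosed_iInter fun _ =>
        isClosed_le continuous_const (continuous_apply _).norm
  obtain ⟨g, hg⟩ := IsCompact.nonempty_iInter_of_sequence_nonempty_isCompact_isClosed K
    (fun N g hg => ⟨hg.1, hg.2.1, fun k hk => hg.2.2 k (hk.trans (Nat.le_succ N))⟩)
    (fun N => by
      obtain ⟨φ, hφ1, hφ2⟩ := hfin N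
      exact ⟨φ, fun v w => map_add φ v w, hφ1, hφ2⟩)
    (hKcl 0).isCompact hKcl
  have hg' : ∀ N, g ∈ K N := fun N => mem_iInter.1 hg N
  let φ : V R →+ T := AddMonoidHom.mk' g (hg' 0).1
  obtain ⟨β, hβ⟩ := exists_coord R (C := insert (π h) (range fun k => π (x k)))
    ((countable_range _).insert _) φ
  have h1 : χ R β (π h) = 0 := (hβ _ (mem_insert _ _)).trans (hg' 0).2.1
  obtain ⟨k, hk⟩ := (hacc {y | ‖χ R β (π y)‖ < δ / 4} (isOpen_lt (hc β).norm continuous_const)
    (by
      show ‖χ R β (π h)‖ < δ / 4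
      rw [h1, norm_zero]
      linarith)).nonempty
  have h2 : ‖χ R β (π (x k))‖ < δ / 4 := hk
  rw [hβ _ (mem_insert_of_mem _ ⟨k, rfl⟩)] at h2
  exact absurd h2 (not_lt.2 ((hg' k).2.2 k le_rfl))

end Pool.Agent.Q213.PN
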