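import Pool.Agent.Q213.PN.B

/-!
# Pseudocompact spaces: size, and refinements by characters
-/

set_option autoImplicit false

open Set Topology Filter
open Cardinal hiding univ

universe u

namespace Pool.Agent.Q213.PN

/-- Every sequence of nonempty open sets has an accumulation point. -/
def FeeblyCompact (X : Type u) [TopologicalSpace X] : Prop :=
  ∀ U : ℕ → Set X, (∀ n, IsOpen (U n) ∧ (U n).Nonempty) →
    ∃ a : X, ∀ O : Set X, IsOpen O → a ∈ O → {n | (U n ∩ O).Nonempty}.Infinite

theorem Pseudocompact.feeblyCompact {X : Type u} [TopologicalSpace X] [CompletelyRegularSpace X]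
    (hX : Pseudocompact X) : FeeblyCompact X := by
  intro U hU
  by_contra! h
  have hlf : LocallyFinite U := by
    intro a
    obtain ⟨O, hO, haO, hfin⟩ := h a
    exact ⟨O, hO.mem_nhds haO, hfin⟩
  choose x hx using fun n => (hU n).2
  have h1 : ∀ n, ∃ f : X → ℝ, Continuous f ∧ f (x n) = 1 ∧ (∀ y, 0 ≤ f y) ∧
      ∀ y, y ∉ U n → f y = 0 := by
    intro n
    obtain ⟨f, hf, hf0, hf1⟩ := CompletelyRegularSpace.completely_regular_isOpen (x n) (U n)
      (hU n).1 (hx n)
    refine ⟨fun y => 1 - (f y : ℝ), by fun_prop, by simp [hf0], fun y => ?_, fun y hy => ?_⟩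
    · have := (f y).2.2
      linarith
    · have h2 : f y = 1 := hf1 hy
      simp [h2]
  choose f hf hfx hf0 hfU using h1
  have hsupp : ∀ n : ℕ, Function.support (fun y => (n : ℝ) * f n y) ⊆ U n := by
    intro n y hy
    by_contra hyn
    exact hy (by simp [hfU n y hyn])
  have hlf' : LocallyFinite fun n : ℕ => Function.support (fun y => (n : ℝ) * f n y) :=
    hlf.subset hsupp
  obtain ⟨M, hM⟩ := hX (fun y => ∑ᶠ n : ℕ, (n : ℝ) * f n y)
    (continuous_finsum (fun n => continuous_const.mul (hf n)) hlf')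
  obtain ⟨n, hn⟩ := exists_nat_gt M
  have h2 : (n : ℝ) ≤ ∑ᶠ m : ℕ, (m : ℝ) * f m (x n) := by
    have h3 : (n : ℝ) = (n : ℝ) * f n (x n) := by rw [hfx, mul_one]
    have hfin : (Function.support fun m : ℕ => (m : ℝ) * f m (x n)).Finite := by
      have h4 := hlf'.point_finite (x n)
      exact h4
    rw [finsum_eq_sum _ hfin]
    by_cases hn0 : (n : ℝ) * f n (x n) = 0
    · rw [← h3] at hn0
      rw [hn0]
      exact Finset.sum_nonneg fun m _ => mul_nonneg (Nat.cast_nonneg _) (hf0 _ _)
    · calc (n : ℝ) = (n : ℝ) * f n (x n) := h3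
        _ ≤ _ := Finset.single_le_sum (f := fun m : ℕ => (m : ℝ) * f m (x n))
          (fun m _ => mul_nonneg (Nat.cast_nonneg _) (hf0 _ _)) (hfin.mem_toFinset.2 hn0)
  have h3 := hM (x n)
  have h4 := le_abs_self (∑ᶠ m : ℕ, (m : ℝ) * f m (x n))
  linarith

/-! ### Size -/

/-- An infinite pseudocompact Hausdorff group has at least continuum many elements. -/
theorem continuum_le {G : Type u} [AddGroup G] [TopologicalSpace G] [IsTopologicalAddGroup G]
    [T2Space G] [Infinite G] (hG : Pseudocompact G) : 𝔠 ≤ #G := by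
  classical
  have hcr : CompletelyRegularSpace G :=
    CompletelyRegularSpace.of_exists_uniformSpace ⟨IsTopologicalAddGroup.rightUniformSpace G, rfl⟩
  have hfc := hG.feeblyCompact
  -- no isolated points
  have hni : ∀ g : G, ¬ IsOpen ({g} : Set G) := by
    intro g hg
    have h1 : IsOpen ({0} : Set G) := by
      have h3 : ({0} : Set G) = (fun x => g + x) ⁻¹' {g} := by
        ext x
        simp
      rw [h3]
      exact hg.preimage (by fun_prop)
    have : DiscreteTopology G := discreteTopology_of_isOpen_singleton_zero h1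
    let e : ℕ ↪ G := Infinite.natEmbedding G
    obtain ⟨M, hM⟩ := hG (fun g => (Function.invFun e g : ℕ)) continuous_of_discreteTopology
    obtain ⟨n, hn⟩ := exists_nat_gt M
    have h2 := hM (e n)
    rw [Function.leftInverse_invFun e.injective n] at h2
    have h3 := le_abs_self (n : ℝ)
    linarith
  -- splitting
  have hsplit : ∀ U : Set G, IsOpen U ∧ U.Nonempty → ∃ p : Set G × Set G,
      (IsOpen p.1 ∧ p.1.Nonempty) ∧ (IsOpen p.2 ∧ p.2.Nonempty) ∧ closure p.1 ⊆ U ∧
        closure p.2 ⊆ U ∧ Disjoint (closure p.1) (closure p.2) := by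
    rintro U ⟨hU, x, hx⟩
    obtain ⟨y, hy, hyx⟩ : ∃ y ∈ U, y ≠ x := by
      by_contra! h
      apply hni x
      have : U = {x} := by
        ext z
        exact ⟨fun hz => h z hz, fun hz => by rw [mem_singleton_iff.1 hz]; exact hx⟩
      rwa [← this]
    obtain ⟨A, B, hA, hB, hxA, hyB, hAB⟩ := t2_separation (Ne.symm hyx)
    have h1 : ∀ z ∈ U, ∀ C : Set G, IsOpen C → z ∈ C → ∃ D : Set G, IsOpen D ∧ z ∈ D ∧
        closure D ⊆ U ∧ closure D ⊆ C := by
      intro z hz C hC hzC
      obtain ⟨D, hD, hDc, hDU⟩ := exists_mem_nhds_isClosed_subset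
        ((hU.inter hC).mem_nhds ⟨hz, hzC⟩)
      refine ⟨interior D, isOpen_interior, mem_interior_iff_mem_nhds.2 hD, ?_, ?_⟩
      · exact (closure_minimal interior_subset hDc).trans (hDU.trans inter_subset_left)
      · exact (closure_minimal interior_subset hDc).trans (hDU.trans inter_subset_right)
    obtain ⟨A', hA', hxA', hA'U, hA'A⟩ := h1 x hx A hA hxA
    obtain ⟨B', hB', hyB', hB'U, hB'B⟩ := h1 y hy B hB hyB
    exact ⟨(A', B'), ⟨hA', x, hxA'⟩, ⟨hB', y, hyB'⟩, hA'U, hB'U, hAB.mono hA'A hB'B⟩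
  choose s hs1 hs2 hs3 hs4 hs5 using hsplit
  let step : Bool → {U : Set G // IsOpen U ∧ U.Nonempty} → {U : Set G // IsOpen U ∧ U.Nonempty} :=
    fun b U => if b then ⟨(s U.1 U.2).1, hs1 U.1 U.2⟩ else ⟨(s U.1 U.2).2, hs2 U.1 U.2⟩
  have hstep : ∀ b U, closure (step b U).1 ⊆ U.1 := by
    intro b U
    cases b
    · exact hs4 U.1 U.2
    · exact hs3 U.1 U.2
  have hdisj : ∀ U, Disjoint (closure (step true U).1) (closure (step false U).1) := fun U =>
    hs5 U.1 U.2
  let S : (ℕ → Bool) → ℕ → {U : Set G // IsOpen U ∧ U.Nonempty} := fun f n =>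
    Nat.rec ⟨univ, isOpen_univ, univ_nonempty⟩ (fun m U => step (f m) U) n
  have hS : ∀ f n, S f (n + 1) = step (f n) (S f n) := fun f n => rfl
  have hanti : ∀ f, Antitone fun n => (S f n).1 := by
    intro f
    refine antitone_nat_of_succ_le fun n => ?_
    rw [hS]
    exact subset_closure.trans (hstep _ _)
  choose x hx using fun f => hfc (fun n => (S f n).1) fun n => (S f n).2
  have hxS : ∀ f n, x f ∈ closure (S f n).1 := by
    intro f n
    refine mem_closure_iff.2 fun O hO hxO => ?_
    obtain ⟨m, hm, hnm⟩ := (hx f O hO hxO).exists_gt n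
    obtain ⟨z, hz1, hz2⟩ := hm
    exact ⟨z, hz2, hanti f hnm.le hz1⟩
  have hinj : Function.Injective x := by
    intro f g hfg
    by_contra hne
    have hex : ∃ n, f n ≠ g n := Function.ne_iff.1 hne
    let n := Nat.find hex
    have hn : f n ≠ g n := Nat.find_spec hex
    have hlt : ∀ m < n, f m = g m := fun m hm => not_not.1 (Nat.find_min hex hm)
    have hSn : ∀ m ≤ n, S f m = S g m := by
      intro m
      induction m with
      | zero => intro _; rfl
      | succ m ih =>
        intro hm
        rw [hS, hS, ih (by omega), hlt m (by omega)]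
    have h1 := hxS f (n + 1)
    have h2 := hxS g (n + 1)
    rw [hS] at h1 h2
    rw [hSn n le_rfl, hfg] at h1
    cases hf : f n <;> cases hg : g n
    · exact hn (hf.trans hg.symm)
    · rw [hf] at h1
      rw [hg] at h2
      exact Set.disjoint_left.1 (hdisj _) h2 h1
    · rw [hf] at h1
      rw [hg] at h2
      exact Set.disjoint_left.1 (hdisj _) h1 h2
    · exact hn (hf.trans hg.symm)
  have h1 := mk_le_of_injective (f := fun b : ULift.{u} (ℕ → Bool) => x b.down)
    (fun a b hab => ULift.down_injective (hinj hab))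
  simpa using h1


end Pool.Agent.Q213.PN
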