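import Pool.Agent.Q213.PN.C

/-!
# Pseudocompact refinements by characters
-/

set_option autoImplicit false

open Set Topology Filter
open Cardinal hiding univ

universe u

namespace Pool.Agent.Q213.PN

theorem χ_torsion (R : Type) [AddCommGroup R] [Countable R] (n : ℕ) (hn : ∀ s : R, n • s = 0)
    (α : J R) (v : V R) : n • χ R α v = 0 := by
  rw [← map_nsmul]
  have h : n • v = 0 := by
    ext ξ
    simp [hn]
  rw [h, map_zero]

/-- Basic neighbourhoods. -/
theorem basic {L G : Type u} [TopologicalSpace L] [AddCommGroup G] [TopologicalSpace G]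
    [IsTopologicalAddGroup G] {K : Type} (p : L → G) (c : L → K → T)
    (hind : IsInducing fun x : L => (p x, c x)) {O : Set L} {x : L} (hO : O ∈ 𝓝 x) :
    ∃ W ∈ 𝓝 (0 : G), ∃ (F : Finset K) (Q : K → Set T), (∀ α, Q α ∈ 𝓝 (c x α)) ∧
      ∀ y, p y - p x ∈ W → (∀ α ∈ F, c y α ∈ Q α) → y ∈ O := by
  rw [hind.nhds_eq_comap] at hO
  obtain ⟨O', hO', hsub⟩ := hO
  obtain ⟨A, hA, B, hB, hAB⟩ := mem_nhds_prod_iff.1 hO'
  rw [nhds_pi] at hB
  obtain ⟨F, Q, hQ, hFQ⟩ := Filter.mem_pi'.1 hB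
  refine ⟨{w | p x + w ∈ A}, ?_, F, Q, hQ, fun y hy1 hy2 => hsub (hAB ⟨?_, ?_⟩)⟩
  · have h1 : Tendsto (fun w : G => p x + w) (𝓝 0) (𝓝 (p x)) := by
      have h2 : Continuous fun w : G => p x + w := by fun_prop
      have h3 := h2.tendsto 0
      rwa [add_zero] at h3
    exact h1 hA
  · have h1 : p x + (p y - p x) ∈ A := hy1
    rwa [add_sub_cancel] at h1
  · exact hFQ fun α hα => hy2 α hα

theorem pseudocompact_refine {L G : Type u} [AddCommGroup L] [TopologicalSpace L]
    [AddCommGroup G] [TopologicalSpace G] [IsTopologicalAddGroup G] (hG : FeeblyCompact G)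
    (R : Type) [AddCommGroup R] [Countable R] (n : ℕ) (r : R)
    (hr : ∀ t : T, n • t = 0 → ∃ σ : R →+ T, σ r = t) (hn : ∀ s : R, n • s = 0)
    (p : L →+ G) (hp : Function.Surjective p) (f : L →+ V R)
    (hind : IsInducing fun x : L => (p x, fun α => χ R α (f x)))
    (hf : ∀ W : ℕ → Set G, (∀ k, W k ∈ 𝓝 (0 : G)) → ∀ v : V R, ∃ e, (∀ k, p e ∈ W k) ∧ f e = v) :
    Pseudocompact L := by
  classical
  intro f0 hf0
  by_contra! hcon
  choose x hx using fun k : ℕ => hcon k
  have h1 : ∀ k : ℕ, ∃ (Vk : Set G) (F : Finset (J R)), IsOpen Vk ∧ (0 : G) ∈ Vk ∧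
      ∀ y, (∃ a ∈ Vk, ∃ b ∈ Vk, ∃ c ∈ Vk, p y - p (x k) = a + b + c) →
        (∀ α ∈ F, χ R α (f y) = χ R α (f (x k))) → (k : ℝ) < |f0 y| := by
    intro k
    have h2 : {q : L | (k : ℝ) < |f0 q|} ∈ 𝓝 (x k) :=
      (isOpen_lt continuous_const hf0.abs).mem_nhds (hx k)
    obtain ⟨W, hW, F, Q, hQ, hFQ⟩ := basic (fun y => p y) (fun y α => χ R α (f y)) hind h2
    obtain ⟨V1, hV1, h01, hV1W⟩ := exists_open_nhds_zero_half hW
    obtain ⟨V2, hV2, h02, hV2W⟩ := exists_open_nhds_zero_half (hV1.mem_nhds h01)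
    refine ⟨V2, F, hV2, h02, fun y hy1 hy2 => hFQ y ?_ fun α hα => ?_⟩
    · obtain ⟨a, ha, b, hb, c, hc, habc⟩ := hy1
      rw [habc]
      refine hV1W _ (hV2W a ha b hb) c ?_
      have := hV2W c hc 0 h02
      rwa [add_zero] at this
    · show χ R α (f y) ∈ Q α
      rw [hy2 α hα]
      exact mem_of_mem_nhds (hQ α)
  choose Vk F hVo hV0 hVF using h1
  -- a convergent subsequence on the countable set of coordinates involved
  let N : Set (J R) := ⋃ k, (F k : Set (J R))
  have hN : N.Countable := countable_iUnion fun k => (F k).countable_toSet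
  have : Countable N := hN.to_subtype
  obtain ⟨z, -, m, hm, hz⟩ := (isCompact_univ (X := N → T)).isSeqCompact
    (x := fun k => fun α : N => χ R α (f (x k))) fun k => mem_univ _
  have hz' : ∀ α : N, Tendsto (fun k => χ R α (f (x (m k)))) atTop (𝓝 (z α)) := fun α =>
    (tendsto_pi_nhds.1 hz) α
  have hzn : ∀ α : N, n • z α = 0 := by
    intro α
    have hcl : IsClosed {t : T | n • t = 0} := isClosed_eq (by fun_prop) continuous_const
    exact hcl.mem_of_tendsto (hz' α) (Eventually.of_forall fun k => χ_torsion R n hn _ _)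
  obtain ⟨h, hh⟩ := hG (fun k => {g | g - p (x (m k)) ∈ Vk (m k)}) fun k =>
    ⟨(hVo (m k)).preimage (by fun_prop), p (x (m k)), by
      show p (x (m k)) - p (x (m k)) ∈ Vk (m k)
      rw [sub_self]; exact hV0 _⟩
  obtain ⟨h', rfl⟩ := hp h
  obtain ⟨v, hv⟩ := exists_vec R n r hr hN
    (fun α => if hα : α ∈ N then z ⟨α, hα⟩ - χ R α (f h') else 0) (fun α => by
      split_ifs with hα
      · rw [smul_sub, hzn, χ_torsion R n hn, sub_zero]
      · simp)
  obtain ⟨e, he1, he2⟩ := hf Vk (fun k => (hVo k).mem_nhds (hV0 k)) v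
  set g0 : L := h' + e with hg0
  have hg0z : ∀ α : N, χ R α (f g0) = z α := by
    intro α
    rw [hg0, map_add, map_add, he2, hv α α.2, dif_pos α.2]
    abel
  have h2 : {q : L | |f0 q| < |f0 g0| + 1} ∈ 𝓝 g0 :=
    (isOpen_lt hf0.abs continuous_const).mem_nhds (lt_add_one |f0 g0|)
  obtain ⟨W, hW, E, Q, hQ, hEQ⟩ := basic (fun y => p y) (fun y α => χ R α (f y)) hind h2
  obtain ⟨V0, hV0o, h00, hV0W⟩ := exists_open_nhds_zero_half hW
  have h3 : ∀ᶠ k in atTop, ∀ α ∈ E, α ∈ N → χ R α (f (x (m k))) ∈ Q α := by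
    rw [Filter.eventually_all_finset]
    intro α _
    by_cases hα : α ∈ N
    · have h4 : Q α ∈ 𝓝 (z ⟨α, hα⟩) := by
        rw [← hg0z ⟨α, hα⟩]
        exact hQ α
      filter_upwards [(hz' ⟨α, hα⟩) h4] with k hk _
      exact hk
    · exact Eventually.of_forall fun k h => absurd h hα
  obtain ⟨K, hK⟩ := eventually_atTop.1 h3
  obtain ⟨K', hK'⟩ := exists_nat_gt (|f0 g0| + 1)
  obtain ⟨k, ⟨y0, hy01, hy02⟩, hk⟩ := (hh {g | g - p h' ∈ V0} (hV0o.preimage (by fun_prop)) (by
    show p h' - p h' ∈ V0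
    rw [sub_self]; exact h00)).exists_gt (max K K')
  obtain ⟨y0', rfl⟩ := hp y0
  -- a common vector
  obtain ⟨w, hw⟩ := exists_vec R n r hr ((E ∪ F (m k)).countable_toSet)
    (fun α => (if α ∈ F (m k) then χ R α (f (x (m k))) else χ R α (f g0)) -
      χ R α (f (y0' + e))) (fun α => by
        rw [smul_sub, χ_torsion R n hn, sub_zero]
        split_ifs
        · exact χ_torsion R n hn _ _
        · exact χ_torsion R n hn _ _)
  obtain ⟨e2, he21, he22⟩ := hf (fun _ => Vk (m k) ∩ V0)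
    (fun _ => ((hVo (m k)).inter hV0o).mem_nhds ⟨hV0 _, h00⟩) w
  set y : L := y0' + e + e2 with hy
  have hyc : ∀ α ∈ E ∪ F (m k), χ R α (f y) =
      if α ∈ F (m k) then χ R α (f (x (m k))) else χ R α (f g0) := by
    intro α hα
    rw [hy, map_add, map_add, he22, hw α (Finset.mem_coe.2 hα)]
    abel
  have h5 : ((m k : ℕ) : ℝ) < |f0 y| := by
    refine hVF (m k) y ⟨p y0' - p (x (m k)), hy01, p e, he1 _, p e2, (he21 0).1, ?_⟩ ?_
    · rw [hy, map_add, map_add]
      abel
    · intro α hα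
      rw [hyc α (Finset.mem_union_right _ hα), if_pos hα]
  have h6 : |f0 y| < |f0 g0| + 1 := by
    refine hEQ y ?_ ?_
    · show p y - p g0 ∈ W
      have h7 : p y - p g0 = (p y0' - p h') + p e2 := by
        rw [hy, hg0, map_add, map_add, map_add]
        abel
      rw [h7]
      exact hV0W _ hy02 _ (he21 0).2
    · intro α hα
      show χ R α (f y) ∈ Q α
      rw [hyc α (Finset.mem_union_left _ hα)]
      split_ifs with hαF
      · exact hK k ((le_max_left _ _).trans hk.le) α hα (mem_iUnion.2 ⟨m k, hαF⟩)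
      · exact mem_of_mem_nhds (hQ α)
  have h7 : K' ≤ m k := (le_max_right K K').trans (hk.le.trans (hm.id_le k))
  have h8 : (K' : ℝ) ≤ (m k : ℕ) := by exact_mod_cast h7
  linarith

/-- The coordinates as a homomorphism. -/
noncomputable def toPi (R : Type) [AddCommGroup R] [Countable R] : V R →+ (J R → T) where
  toFun v α := χ R α v
  map_zero' := by
    funext α
    simp
  map_add' v w := by
    funext α
    simp

theorem toPi_injective (R : Type) [AddCommGroup R] [Countable R] (n : ℕ) (r : R)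
    (hsep : ∀ s : R, s ≠ 0 → ∃ σ : R →+ T, σ s ≠ 0) : Function.Injective (toPi R) := by
  rw [injective_iff_map_eq_zero]
  intro v hv
  by_contra hne
  obtain ⟨ξ, hξ⟩ := DFunLike.ne_iff.1 hne
  obtain ⟨σ, hσ⟩ := hsep (v ξ) hξ
  obtain ⟨α, hα⟩ := exists_coord R (C := {v}) (countable_singleton v)
    (σ.comp (Finsupp.applyAddHom ξ))
  have h1 : χ R α v = 0 := congrFun hv α
  rw [hα v rfl] at h1
  exact hσ h1

/-- **Main reduction.** -/
theorem exists_topology {L G : Type u} [AddCommGroup L]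
    [AddCommGroup G] [TopologicalSpace G] [IsTopologicalAddGroup G] (hG : FeeblyCompact G)
    (R : Type) [AddCommGroup R] [Countable R] (n : ℕ) (r : R)
    (hr : ∀ t : T, n • t = 0 → ∃ σ : R →+ T, σ r = t) (hn : ∀ s : R, n • s = 0)
    (a : T) (ha : a ≠ 0) (hna : n • a = 0)
    (p : L →+ G) (hp : Function.Surjective p) (f : L →+ V R)
    (hf : ∀ W : ℕ → Set G, (∀ k, W k ∈ 𝓝 (0 : G)) → ∀ v : V R, ∃ e, (∀ k, p e ∈ W k) ∧ f e = v)
    (hsep : ∀ x : L, x ≠ 0 → (∃ U : Set G, IsOpen U ∧ (0 : G) ∈ U ∧ p x ∉ U) ∨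
      ∃ α, χ R α (f x) ≠ 0) :
    ∃ σ : TopologicalSpace L, @IsTopologicalAddGroup L σ _ ∧ @T2Space L σ ∧
      @Pseudocompact L σ ∧ ¬ @SelectivelyPseudocompact L σ := by
  let E : L →+ G × (J R → T) := p.prod ((toPi R).comp f)
  let σ : TopologicalSpace L := TopologicalSpace.induced E inferInstance
  have hind : IsInducing E := ⟨rfl⟩
  have hgrp : IsTopologicalAddGroup L := topologicalAddGroup_induced E
  refine ⟨σ, hgrp, ?_, ?_, ?_⟩
  · refine IsTopologicalAddGroup.t2Space_of_zero_sep fun x hx => ?_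
    rcases hsep x hx with ⟨U, hU, h0, hpx⟩ | ⟨α, hα⟩
    · refine ⟨p ⁻¹' U, ?_, hpx⟩
      have hpc : Continuous p := continuous_fst.comp hind.continuous
      exact (hU.preimage hpc).mem_nhds (by
        show p 0 ∈ U
        rw [map_zero]; exact h0)
    · have hcc : Continuous fun y => χ R α (f y) :=
        (continuous_apply α).comp (continuous_snd.comp hind.continuous)
      refine ⟨{y | χ R α (f y) ≠ χ R α (f x)}, ?_, fun h => h rfl⟩
      exact (isOpen_ne_fun hcc continuous_const).mem_nhds (by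
        show χ R α (f 0) ≠ χ R α (f x)
        rw [map_zero, map_zero]
        exact hα.symm)
  · exact pseudocompact_refine hG R n r hr hn p hp f hind hf
  · refine not_selectively R n r hr a ha hna f ?_ fun α => ?_
    · intro v
      obtain ⟨e, -, he⟩ := hf (fun _ => univ) (fun _ => univ_mem) v
      exact ⟨e, he⟩
    · exact (continuous_apply α).comp (continuous_snd.comp hind.continuous)

end Pool.Agent.Q213.PN
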