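import Pool.Agent.Q213.PN.D

/-!
# Homocyclic direct summands of bounded groups
-/

set_option autoImplicit false

open Set Topology Filter
open Cardinal hiding univ

universe u

namespace Pool.Agent.Q213.PN

/-- The injectivity of a homocyclic group of exponent `q` as a module over `ZMod q`. -/
theorem baer_zmod (q : ℕ) (hq : 0 < q) : Module.Baer (ZMod q) (ℝ →₀ ZMod q) := by
  classical
  have : NeZero q := ⟨hq.ne'⟩
  intro I g
  let Jd : Ideal ℤ := I.comap (Int.castRingHom (ZMod q))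
  obtain ⟨m, hm⟩ := (IsPrincipalIdealRing.principal Jd).principal
  have hmem : ∀ x : ℤ, x ∈ Jd ↔ m ∣ x := fun x => by
    rw [hm]
    exact Submodule.mem_span_singleton.trans ⟨fun ⟨a, ha⟩ => ⟨a, by rw [← ha]; simp [mul_comm]⟩,
      fun ⟨a, ha⟩ => ⟨a, by rw [ha]; simp [mul_comm]⟩⟩
  have hJd : ∀ x : ℤ, x ∈ Jd ↔ ((x : ℤ) : ZMod q) ∈ I := fun x => Iff.rfl
  have hqJ : (q : ℤ) ∈ Jd := by
    rw [hJd]
    simp
  obtain ⟨l, hl⟩ := (hmem _).1 hqJ
  have hq0 : (q : ℤ) ≠ 0 := by exact_mod_cast hq.ne'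
  have hm0 : m ≠ 0 := by
    rintro rfl
    rw [zero_mul] at hl
    exact hq0 hl
  have hl0 : l ≠ 0 := by
    rintro rfl
    rw [mul_zero] at hl
    exact hq0 hl
  have hmI : ((m : ℤ) : ZMod q) ∈ I := (hJd m).1 ((hmem m).2 dvd_rfl)
  set w : ℝ →₀ ZMod q := g ⟨_, hmI⟩ with hw
  have hlw : ((l : ℤ) : ZMod q) • w = 0 := by
    rw [hw, ← map_smul]
    have h1 : ((l : ℤ) : ZMod q) • (⟨((m : ℤ) : ZMod q), hmI⟩ : I) = 0 := by
      apply Subtype.ext
      show ((l : ℤ) : ZMod q) * ((m : ℤ) : ZMod q) = 0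
      rw [← Int.cast_mul, mul_comm, ← hl]
      simp
    rw [h1, map_zero]
  have hdiv : ∀ ξ, m ∣ ((w ξ).val : ℤ) := by
    intro ξ
    have h1 : ((l : ℤ) : ZMod q) * w ξ = 0 := DFunLike.congr_fun hlw ξ
    have h2 : ((l * ((w ξ).val : ℤ) : ℤ) : ZMod q) = 0 := by
      push_cast
      rw [ZMod.natCast_zmod_val]
      exact h1
    rw [ZMod.intCast_zmod_eq_zero_iff_dvd, hl] at h2
    have h3 : l * m ∣ l * ((w ξ).val : ℤ) := by rwa [mul_comm m l] at h2
    exact (mul_dvd_mul_iff_left hl0).1 h3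
  let v : ℝ →₀ ZMod q := w.mapRange (fun t => (((t.val : ℤ) / m : ℤ) : ZMod q)) (by simp)
  have hv : ((m : ℤ) : ZMod q) • v = w := by
    ext ξ
    show ((m : ℤ) : ZMod q) * ((((w ξ).val : ℤ) / m : ℤ) : ZMod q) = w ξ
    rw [← Int.cast_mul, Int.mul_ediv_cancel' (hdiv ξ)]
    push_cast
    exact ZMod.natCast_zmod_val _
  refine ⟨LinearMap.toSpanSingleton (ZMod q) _ v, fun x hx => ?_⟩
  have h1 : ((x.val : ℤ)) ∈ Jd := by
    rw [hJd]
    push_cast
    rw [ZMod.natCast_zmod_val]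
    exact hx
  obtain ⟨b, hb⟩ := (hmem _).1 h1
  have h2 : x = ((b : ℤ) : ZMod q) * ((m : ℤ) : ZMod q) := by
    rw [← Int.cast_mul, mul_comm, ← hb]
    push_cast
    exact (ZMod.natCast_zmod_val x).symm
  have h3 : (⟨x, hx⟩ : I) = ((b : ℤ) : ZMod q) • (⟨((m : ℤ) : ZMod q), hmI⟩ : I) :=
    Subtype.ext h2
  rw [h3, map_smul, ← hw, ← hv, LinearMap.toSpanSingleton_apply, smul_smul, ← h2]

theorem retract_aux (q : ℕ) (hq : 0 < q) {M : Type u} [AddCommGroup M] (hM : ∀ x : M, q • x = 0)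
    (b : ℝ → M)
    (hb : ∀ c : ℝ →₀ ℤ, (c.sum fun ξ n => n • b ξ) = 0 → ∀ ξ, (q : ℤ) ∣ c ξ) :
    ∃ h : M →+ V (ZMod q), ∀ ξ, h (b ξ) = Finsupp.single ξ 1 := by
  classical
  have : NeZero q := ⟨hq.ne'⟩
  have : Module (ZMod q) M := AddCommGroup.zmodModule hM
  let φ : (ℝ →₀ ZMod q) →ₗ[ZMod q] M := Finsupp.linearCombination (ZMod q) b
  have hφ : Function.Injective φ := by
    rw [injective_iff_map_eq_zero]
    intro v hv
    let c : ℝ →₀ ℤ := v.mapRange (fun t => (t.val : ℤ)) (by simp)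
    have h1 : (c.sum fun ξ n => n • b ξ) = 0 := by
      rw [← hv, Finsupp.sum_mapRange_index (by simp), Finsupp.linearCombination_apply]
      apply Finsupp.sum_congr
      intro ξ _
      rw [natCast_zsmul, ← Nat.cast_smul_eq_nsmul (ZMod q), ZMod.natCast_zmod_val]
    ext ξ
    have h2 := hb c h1 ξ
    have h3 : ((c ξ : ℤ) : ZMod q) = 0 := (ZMod.intCast_zmod_eq_zero_iff_dvd _ _).2 h2
    have h4 : ((c ξ : ℤ) : ZMod q) = v ξ := by
      show ((((v ξ).val : ℤ)) : ZMod q) = v ξ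
      push_cast
      exact ZMod.natCast_zmod_val _
    rw [← h4, h3]
    rfl
  obtain ⟨h, hh⟩ := (baer_zmod q hq).extension_property φ hφ LinearMap.id
  refine ⟨h.toAddMonoidHom, fun ξ => ?_⟩
  have h1 : φ (Finsupp.single ξ 1) = b ξ := by
    simp [φ]
  show h (b ξ) = _
  rw [← h1]
  exact LinearMap.congr_fun hh (Finsupp.single ξ 1)

/-- Retractions onto homocyclic groups. -/
theorem exists_retract {G : Type u} [AddCommGroup G] (q : ℕ) (hq : 0 < q) (b : ℝ → G)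
    (hb : ∀ ξ, q • b ξ = 0)
    (hpure : ∀ (c : ℝ →₀ ℤ) (g : G), (c.sum fun ξ n => n • b ξ) = q • g → ∀ ξ, (q : ℤ) ∣ c ξ) :
    ∃ (f : G →+ V (ZMod q)) (ι : V (ZMod q) →+ G), ∀ v, f (ι v) = v := by
  classical
  have : NeZero q := ⟨hq.ne'⟩
  let Q : AddSubgroup G := (nsmulAddMonoidHom q : G →+ G).range
  have hQ : ∀ x : G ⧸ Q, q • x = 0 := by
    intro x
    obtain ⟨g, rfl⟩ := QuotientAddGroup.mk_surjective x
    rw [← QuotientAddGroup.mk_nsmul, QuotientAddGroup.eq_zero_iff]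
    exact ⟨g, rfl⟩
  obtain ⟨h, hh⟩ := retract_aux q hq hQ (fun ξ => (QuotientAddGroup.mk (b ξ) : G ⧸ Q)) (by
    intro c hc
    have h1 : (QuotientAddGroup.mk (c.sum fun ξ n => n • b ξ) : G ⧸ Q) = 0 := by
      rw [← hc]
      show (QuotientAddGroup.mk' Q) (c.sum fun ξ n => n • b ξ) = _
      rw [map_finsuppSum]
      rfl
    rw [QuotientAddGroup.eq_zero_iff] at h1
    obtain ⟨g, hg⟩ := h1
    exact hpure c g hg.symm)
  let f : G →+ V (ZMod q) := h.comp (QuotientAddGroup.mk' Q)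
  let ι : V (ZMod q) →+ G := Finsupp.liftAddHom fun ξ =>
    ZMod.lift q ⟨zmultiplesHom G (b ξ), by simpa using hb ξ⟩
  refine ⟨f, ι, fun v => ?_⟩
  have hfb : ∀ ξ, f (b ξ) = Finsupp.single ξ 1 := hh
  have hcomp : f.comp ι = AddMonoidHom.id _ := by
    apply Finsupp.addHom_ext
    intro ξ r
    show f (ι (Finsupp.single ξ r)) = Finsupp.single ξ r
    have h1 : ι (Finsupp.single ξ r) = r.val • b ξ := by
      rw [Finsupp.liftAddHom_apply_single]
      have h2 := ZMod.lift_coe q ⟨zmultiplesHom G (b ξ), by simpa using hb ξ⟩ (r.val : ℤ)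
      have h3 : (((r.val : ℤ)) : ZMod q) = r := by
        push_cast
        exact ZMod.natCast_zmod_val _
      rw [h3] at h2
      rw [h2]
      show ((r.val : ℕ) : ℤ) • b ξ = _
      rw [natCast_zsmul]
    rw [h1, map_nsmul, hfb, Finsupp.smul_single]
    congr 1
    rw [nsmul_eq_mul, mul_one, ZMod.natCast_zmod_val]
  exact DFunLike.congr_fun hcomp v

theorem family_aux {Q : Type u} [AddCommGroup Q] (p : ℕ) [Fact p.Prime]
    (hpQ : ∀ x : Q, p • x = 0) (hQc : 𝔠 ≤ #Q) :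
    ∃ y : ℝ → Q, ∀ c : ℝ →₀ ℤ, (c.sum fun ξ n => n • y ξ) = 0 → ∀ ξ, (p : ℤ) ∣ c ξ := by
  classical
  have : Module (ZMod p) Q := AddCommGroup.zmodModule hpQ
  let b := Module.Basis.ofVectorSpace (ZMod p) Q
  let ι := Module.Basis.ofVectorSpaceIndex (ZMod p) Q
  have hι : 𝔠 ≤ #ι := by
    by_contra hlt
    rw [not_le] at hlt
    have h1 : #Q = #(ι →₀ ZMod p) := Cardinal.mk_congr b.repr.toEquiv
    rcases finite_or_infinite ι with hf | hi
    · have h2 : Finite (ι →₀ ZMod p) := by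
        have : Finite (ι → ZMod p) := inferInstance
        exact Finite.of_injective (fun f : ι →₀ ZMod p => (f : ι → ZMod p)) DFunLike.coe_injective
      have h3 : #(ι →₀ ZMod p) < ℵ₀ := Cardinal.lt_aleph0_iff_finite.2 h2
      rw [← h1] at h3
      exact absurd (aleph0_le_continuum.trans hQc) (not_le.2 h3)
    · rw [Cardinal.mk_finsupp_lift_of_infinite ι (ZMod p)] at h1
      rw [h1] at hQc
      have h2 : Cardinal.lift.{u} #(ZMod p) ≤ ℵ₀ := by
        have h3 : #(ZMod p) ≤ ℵ₀ := mk_le_aleph0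
        simp
      have h4 : max (Cardinal.lift.{0} #ι) (Cardinal.lift.{u} #(ZMod p)) < 𝔠 := by
        refine max_lt ?_ (h2.trans_lt aleph0_lt_continuum)
        rwa [lift_uzero]
      exact absurd hQc (not_le.2 h4)
  obtain ⟨j⟩ : Nonempty (ℝ ↪ ι) := by
    rw [← Cardinal.lift_mk_le', mk_real]
    simpa using hι
  refine ⟨fun ξ => b (j ξ), fun c hc ξ => ?_⟩
  have hli : LinearIndependent (ZMod p) fun ξ : ℝ => b (j ξ) :=
    b.linearIndependent.comp j j.injective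
  rw [linearIndependent_iff] at hli
  let c' : ℝ →₀ ZMod p := c.mapRange (fun t : ℤ => (t : ZMod p)) (by simp)
  have h1 : Finsupp.linearCombination (ZMod p) (fun ξ : ℝ => b (j ξ)) c' = 0 := by
    rw [← hc, Finsupp.linearCombination_apply, Finsupp.sum_mapRange_index (by simp)]
    apply Finsupp.sum_congr
    intro ξ _
    rw [Int.cast_smul_eq_zsmul]
  have h2 := DFunLike.congr_fun (hli c' h1) ξ
  exact (ZMod.intCast_zmod_eq_zero_iff_dvd _ _).1 h2

/-- Independent families modulo a finite subgroup. -/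
theorem exists_family {G : Type u} [AddCommGroup G] (p : ℕ) [Fact p.Prime] (H D : AddSubgroup G)
    (hH : ∀ x ∈ H, p • x = 0) (hD : ((H ⊓ D : AddSubgroup G) : Set G).Finite) (hc : 𝔠 ≤ #H) :
    ∃ x : ℝ → G, (∀ ξ, x ξ ∈ H) ∧
      ∀ c : ℝ →₀ ℤ, (c.sum fun ξ n => n • x ξ) ∈ D → ∀ ξ, (p : ℤ) ∣ c ξ := by
  classical
  let D' : AddSubgroup H := D.addSubgroupOf H
  have hpQ : ∀ x : H ⧸ D', p • x = 0 := by
    intro x
    obtain ⟨g, rfl⟩ := QuotientAddGroup.mk_surjective x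
    rw [← QuotientAddGroup.mk_nsmul]
    have h1 : p • g = 0 := Subtype.ext (hH g g.2)
    rw [h1]
    rfl
  -- cardinality of the quotient
  have hDfin : Finite D' := by
    have h1 : Finite ((H ⊓ D : AddSubgroup G) : Set G) := hD
    refine Finite.of_injective (β := ((H ⊓ D : AddSubgroup G) : Set G))
      (fun d => ⟨(d.1 : G), d.1.2, d.2⟩) ?_
    intro d d' hdd
    have h2 : ((d.1 : H) : G) = d'.1 := Subtype.mk.inj hdd
    exact Subtype.ext (Subtype.ext h2)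
  have hQc : 𝔠 ≤ #(H ⧸ D') := by
    by_contra hlt
    rw [not_le] at hlt
    have h1 : #H = #(H ⧸ D') * #D' := by
      have e := AddSubgroup.addGroupEquivQuotientProdAddSubgroup (s := D')
      rw [Cardinal.mk_congr e, mk_prod, lift_id, lift_id]
    have h2 : #D' < 𝔠 := (Cardinal.lt_aleph0_iff_finite.2 hDfin).trans aleph0_lt_continuum
    have h3 := Cardinal.mul_lt_of_lt aleph0_le_continuum hlt h2
    rw [← h1] at h3
    exact absurd hc (not_le.2 h3)
  obtain ⟨y, hy⟩ := family_aux p hpQ hQc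
  choose s hs using fun y : H ⧸ D' => QuotientAddGroup.mk_surjective y
  refine ⟨fun ξ => (s (y ξ) : G), fun ξ => (s (y ξ)).2, fun c hcD => hy c ?_⟩
  have h2 : (c.sum fun ξ n => n • s (y ξ) : H) ∈ D' := by
    show ((c.sum fun ξ n => n • s (y ξ) : H) : G) ∈ D
    have h3 : ((c.sum fun ξ n => n • s (y ξ) : H) : G) =
        c.sum fun ξ n => n • (s (y ξ) : G) := by
      show H.subtype _ = _
      rw [map_finsuppSum]
      rfl
    rw [h3]
    exact hcD
  rw [← QuotientAddGroup.eq_zero_iff] at h2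
  rw [← h2]
  show _ = (QuotientAddGroup.mk' D') (c.sum fun ξ n => n • s (y ξ))
  rw [map_finsuppSum]
  apply Finsupp.sum_congr
  intro ξ _
  rw [map_zsmul]
  show c ξ • y ξ = c ξ • (QuotientAddGroup.mk (s (y ξ)) : H ⧸ D')
  rw [hs]

end Pool.Agent.Q213.PN
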