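import Pool.Agent.Q213.PN.E
import Pool.Agent.H376R3.PC.Ext

/-!
# The bounded case
-/

set_option autoImplicit false

open Set Topology Filter
open Cardinal hiding univ

universe u

namespace Pool.Agent.Q213.PN

theorem exists_character {A : Type u} [AddCommGroup A] (v : A) (hv : v ≠ 0) :
    ∃ φ : A →+ T, φ v ≠ 0 := by
  obtain ⟨τ, hτ1, hτ2⟩ := Pool.Agent.H376R3.PC.exists_tau (addOrderOf v)
  obtain ⟨j, hj⟩ := Pool.Agent.H376R3.PC.exists_ext (X := Unit) (zmultiplesHom A v)
    (zmultiplesHom (Unit → T) (fun _ => τ)) (by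
      intro n h
      have h1 : n • v = 0 := h
      obtain ⟨m, hm⟩ := addOrderOf_dvd_iff_zsmul_eq_zero.2 h1
      show n • (fun _ : Unit => τ) = 0
      funext _
      show n • τ = 0
      rw [hm, mul_comm, mul_smul, natCast_zsmul, hτ1, smul_zero])
  refine ⟨(Pi.evalAddMonoidHom (fun _ : Unit => T) ()).comp j, fun h0 => hv ?_⟩
  have h1 := hj 1
  have h2 : j v = fun _ => τ := by simpa using h1
  have h3 : τ = 0 := by
    have h4 : j v () = 0 := h0
    rw [h2] at h4
    exact h4
  have h4 := hτ2 1 (by rw [h3, smul_zero])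
  have h5 : addOrderOf v = 1 := by
    have := Int.eq_one_of_dvd_one (by positivity) h4
    exact_mod_cast this
  exact AddMonoid.addOrderOf_eq_one_iff.1 h5

theorem exists_coord_ne (R : Type) [AddCommGroup R] [Countable R] (v : V R) (hv : v ≠ 0) :
    ∃ α, χ R α v ≠ 0 := by
  obtain ⟨φ, hφ⟩ := exists_character v hv
  obtain ⟨α, hα⟩ := exists_coord R (countable_singleton v) φ
  exact ⟨α, by rw [hα v rfl]; exact hφ⟩

theorem equiv_of_retract {L : Type u} [AddCommGroup L] (q : ℕ) (f : L →+ V (ZMod q))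
    (ι : V (ZMod q) →+ L) (h : ∀ v, f (ι v) = v) : Nonempty (L ≃+ V (ZMod q) × L) := by
  let K : AddSubgroup L := f.ker
  let e1 : L ≃+ V (ZMod q) × K :=
    { toFun := fun x => (f x, ⟨x - ι (f x), by
        show f (x - ι (f x)) = 0
        rw [map_sub, h, sub_self]⟩)
      invFun := fun y => ι y.1 + y.2
      left_inv := fun x => by simp
      right_inv := by
        rintro ⟨v, k, hk⟩
        have hk' : f k = 0 := hk
        apply Prod.ext
        · show f (ι v + k) = v
          rw [map_add, h, hk', add_zero]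
        · apply Subtype.ext
          show ι v + k - ι (f (ι v + k)) = k
          rw [map_add, h, hk', add_zero, add_sub_cancel_left]
      map_add' := by
        intro x y
        apply Prod.ext
        · show f (x + y) = f x + f y
          rw [map_add]
        · apply Subtype.ext
          show x + y - ι (f (x + y)) = (x - ι (f x)) + (y - ι (f y))
          rw [map_add, map_add]
          abel }
  obtain ⟨e⟩ : Nonempty (ℝ ≃ ℝ ⊕ ℝ) := by
    refine Cardinal.eq.1 ?_
    rw [mk_sum, lift_id, mk_real, continuum_add_self]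
  let e2 : V (ZMod q) ≃+ V (ZMod q) × V (ZMod q) :=
    (Finsupp.domCongr e).trans Finsupp.sumFinsuppAddEquivProdFinsupp
  exact ⟨e1.trans (((e2.prodCongr (AddEquiv.refl K)).trans AddEquiv.prodAssoc).trans
    ((AddEquiv.refl _).prodCongr e1.symm))⟩

theorem exists_retract_of_bounded {G : Type u} [AddCommGroup G] [Infinite G]
    (hmul : ∀ n : ℕ, (range fun x : G => n • x).Infinite →
      𝔠 ≤ #(nsmulAddMonoidHom n : G →+ G).range)
    (N : ℕ) (hN : 0 < N) (hb : ∀ x : G, N • x = 0) :
    ∃ (q : ℕ) (f : G →+ V (ZMod q)) (ι : V (ZMod q) →+ G), 1 < q ∧ ∀ v, f (ι v) = v := by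
  classical
  let P : ℕ → Prop := fun n => n ∣ N ∧ (range fun x : G => n • x).Infinite
  have hP1 : P 1 := by
    refine ⟨one_dvd _, ?_⟩
    have h1 : (range fun x : G => 1 • x) = univ := by
      ext x
      simp
    rw [h1]
    exact infinite_univ
  have hPn : P (Nat.findGreatest P N) := Nat.findGreatest_spec (P := P) hN hP1
  set n := Nat.findGreatest P N with hn
  obtain ⟨m, hm⟩ := hPn.1
  have hm1 : m ≠ 1 := by
    rintro rfl
    rw [mul_one] at hm
    apply hPn.2
    rw [← hm]
    refine (finite_singleton (0 : G)).subset ?_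
    rintro _ ⟨x, rfl⟩
    exact hb x
  have hn0 : n ≠ 0 := by
    intro h0
    rw [h0, zero_mul] at hm
    omega
  obtain ⟨p, hp, hpm⟩ := Nat.exists_prime_and_dvd hm1
  have : Fact p.Prime := ⟨hp⟩
  have hpn : (range fun x : G => (p * n) • x).Finite := by
    by_contra hinf
    have h1 : P (p * n) := by
      refine ⟨?_, hinf⟩
      rw [hm, mul_comm p n]
      exact Nat.mul_dvd_mul_left n hpm
    have h2 := Nat.le_findGreatest (P := P) (Nat.le_of_dvd hN h1.1) h1
    rw [← hn] at h2
    have h3 := hp.two_le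
    have h4 : 0 < n := Nat.pos_of_ne_zero hn0
    nlinarith
  obtain ⟨k, n', hpn', hnk⟩ := Nat.exists_eq_pow_mul_and_not_dvd hn0 p hp.ne_one
  have hcop : Nat.Coprime n' p := by
    rw [Nat.coprime_comm]
    exact (hp.coprime_iff_not_dvd).2 hpn'
  have hinj : ∀ x : G, p • x = 0 → n' • x = 0 → x = 0 := by
    intro x h1 h2
    obtain ⟨a, b, hab⟩ := Nat.isCoprime_iff_coprime.2 hcop
    have : x = (a * (n' : ℤ) + b * (p : ℤ)) • x := by rw [hab, one_smul]
    rw [this, add_smul, mul_smul, mul_smul, natCast_zsmul, natCast_zsmul, h1, h2]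
    simp
  let A : AddSubgroup G := (nsmulAddMonoidHom n : G →+ G).range
  let H : AddSubgroup G := (nsmulAddMonoidHom p : G →+ G).ker ⊓ A
  let D : AddSubgroup G := (nsmulAddMonoidHom (p ^ (k + 1)) : G →+ G).range
  have hH : ∀ x ∈ H, p • x = 0 := fun x hx => hx.1
  have hD : ((H ⊓ D : AddSubgroup G) : Set G).Finite := by
    refine Set.Finite.of_injOn (f := fun x => n' • x) (t := range fun x : G => (p * n) • x)
      ?_ ?_ hpn
    · rintro x ⟨hx, g, hg⟩
      refine ⟨g, ?_⟩
      have hg' : p ^ (k + 1) • g = x := hg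
      show (p * n) • g = n' • x
      rw [← hg', smul_smul, hnk]
      congr 1
      ring
    · intro x hx y hy hxy
      have h1 : x - y = 0 := by
        apply hinj
        · rw [smul_sub, hH x hx.1, hH y hy.1, sub_zero]
        · have h2 : n' • x = n' • y := hxy
          rw [smul_sub, h2, sub_self]
      exact sub_eq_zero.1 h1
  have hc : 𝔠 ≤ #H := by
    by_contra hlt
    rw [not_le] at hlt
    have hA := hmul n hPn.2
    have h1 : ∀ y : (range fun x : G => (p * n) • x), ∃ a ∈ A, p • a = y.1 := by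
      rintro ⟨_, x, rfl⟩
      exact ⟨n • x, ⟨x, rfl⟩, by rw [smul_smul]⟩
    choose s hs1 hs2 using h1
    have hpa : ∀ a : A, p • (a : G) ∈ range fun x : G => (p * n) • x := by
      rintro ⟨_, x, rfl⟩
      exact ⟨x, by show (p * n) • x = p • n • x; rw [smul_smul]⟩
    let F : A → (range fun x : G => (p * n) • x) × H := fun a =>
      (⟨p • (a : G), hpa a⟩, ⟨(a : G) - s ⟨p • (a : G), hpa a⟩, by
        show p • ((a : G) - s ⟨p • (a : G), hpa a⟩) = 0
        rw [smul_sub, hs2, sub_self], A.sub_mem a.2 (hs1 _)⟩)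
    have hF : Function.Injective F := by
      intro a a' haa
      have h2 := (Prod.ext_iff.1 haa).1
      have h3 := congrArg Subtype.val (Prod.ext_iff.1 haa).2
      have h4 : (a : G) - s ⟨p • (a : G), hpa a⟩ = (a' : G) - s ⟨p • (a' : G), hpa a'⟩ := h3
      have h5 : (⟨p • (a : G), hpa a⟩ : (range fun x : G => (p * n) • x)) =
        ⟨p • (a' : G), hpa a'⟩ := h2
      rw [h5] at h4
      exact Subtype.ext (sub_left_injective h4)
    have h2 := mk_le_of_injective hF
    rw [mk_prod, lift_id, lift_id] at h2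
    have h3 : #(range fun x : G => (p * n) • x) < 𝔠 :=
      (Cardinal.lt_aleph0_iff_finite.2 hpn).trans aleph0_lt_continuum
    have h4 := Cardinal.mul_lt_of_lt aleph0_le_continuum h3 hlt
    exact absurd hA (not_le.2 (h2.trans_lt h4))
  obtain ⟨x, hx1, hx2⟩ := exists_family p H D hH hD hc
  choose g hg using fun ξ => (hx1 ξ).2
  have hg' : ∀ ξ, n • g ξ = x ξ := hg
  have hbx : ∀ ξ, p ^ k • (n' • g ξ) = x ξ := by
    intro ξ
    rw [smul_smul, ← hnk, hg']
  obtain ⟨f, ι, hfι⟩ := exists_retract (p ^ (k + 1)) (pow_pos hp.pos _) (fun ξ => n' • g ξ)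
    (fun ξ => by
      rw [pow_succ, mul_comm, mul_smul, hbx]
      exact hH _ (hx1 ξ))
    (fun c g0 hc0 => by
      have key : ∀ j, j ≤ k + 1 → ∀ ξ, ((p : ℤ) ^ j) ∣ c ξ := by
        intro j
        induction j with
        | zero => intro _ ξ; simp
        | succ j ih =>
          intro hj ξ
          have ih' := ih (by omega)
          let c' : ℝ →₀ ℤ := c.mapRange (fun t => t / (p : ℤ) ^ j) (by simp)
          have hcc : ∀ ξ, c ξ = (p : ℤ) ^ j * c' ξ := fun ξ => by
            show c ξ = (p : ℤ) ^ j * (c ξ / (p : ℤ) ^ j)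
            rw [Int.mul_ediv_cancel' (ih' ξ)]
          have h1 : (c'.sum fun ξ n => n • x ξ) = p ^ (k + 1) • (p ^ (k - j) • g0) := by
            rw [smul_comm, ← hc0, Finsupp.smul_sum, Finsupp.sum_mapRange_index (by simp)]
            apply Finsupp.sum_congr
            intro ξ _
            show (c ξ / (p : ℤ) ^ j) • x ξ = _
            have h2 : c ξ / (p : ℤ) ^ j = c' ξ := rfl
            rw [h2, hcc ξ, ← hbx ξ, mul_smul, ← Nat.cast_pow, natCast_zsmul]
            rw [smul_comm (p ^ j) (c' ξ), smul_comm (p ^ (k - j)) (c' ξ), smul_smul (p ^ (k - j)),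
              ← pow_add, Nat.sub_add_cancel (by omega)]
          have h2 := hx2 c' (by rw [h1]; exact ⟨_, rfl⟩) ξ
          rw [hcc ξ, pow_succ]
          exact mul_dvd_mul_left _ h2
      intro ξ
      have := key (k + 1) le_rfl ξ
      push_cast
      exact this)
  exact ⟨p ^ (k + 1), f, ι, Nat.one_lt_pow (Nat.succ_ne_zero k) hp.one_lt, hfι⟩

theorem bounded {G : Type u} [AddCommGroup G] [TopologicalSpace G] [IsTopologicalAddGroup G]
    [T2Space G] [Infinite G] (hG : Pseudocompact G) (N : ℕ) (hN : 0 < N)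
    (hb : ∀ x : G, N • x = 0) :
    ∃ σ : TopologicalSpace G, @IsTopologicalAddGroup G σ _ ∧ @T2Space G σ ∧
      @Pseudocompact G σ ∧ ¬ @SelectivelyPseudocompact G σ := by
  have hmul : ∀ n : ℕ, (range fun x : G => n • x).Infinite →
      𝔠 ≤ #(nsmulAddMonoidHom n : G →+ G).range := by
    intro n hn
    have : Infinite (nsmulAddMonoidHom n : G →+ G).range := by
      have h1 : Infinite (range fun x : G => n • x) := hn.to_subtype
      exact h1
    apply continuum_le (G := (nsmulAddMonoidHom n : G →+ G).range)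
    intro f hf
    have hπ : Continuous fun x : G => (⟨n • x, x, rfl⟩ : (nsmulAddMonoidHom n : G →+ G).range) :=
      Continuous.subtype_mk (by fun_prop) _
    obtain ⟨M, hM⟩ := hG _ (hf.comp hπ)
    refine ⟨M, ?_⟩
    rintro ⟨_, x, rfl⟩
    exact hM x
  obtain ⟨q, f, ι, hq, hfι⟩ := exists_retract_of_bounded hmul N hN hb
  obtain ⟨e⟩ := equiv_of_retract q f ι hfι
  have hcr : CompletelyRegularSpace G :=
    CompletelyRegularSpace.of_exists_uniformSpace ⟨IsTopologicalAddGroup.rightUniformSpace G, rfl⟩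
  obtain ⟨a, ha1, ha2⟩ := Pool.Agent.H376R3.PC.exists_tau q
  have : NeZero q := ⟨by omega⟩
  refine exists_topology hG.feeblyCompact (ZMod q) q 1 (exists_hom_zmod q) (fun s => by simp) a
    ?_ ha1 ((AddMonoidHom.snd _ _).comp e.toAddMonoidHom) ?_
    ((AddMonoidHom.fst _ _).comp e.toAddMonoidHom) ?_ ?_
  · rintro rfl
    have h1 := ha2 1 (by simp)
    have h2 := Int.eq_one_of_dvd_one (by positivity) h1
    have h3 : q = 1 := by exact_mod_cast h2
    omega
  · intro g
    exact ⟨e.symm (0, g), by simp⟩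
  · intro W hW v
    refine ⟨e.symm (v, 0), fun k => ?_, by simp⟩
    have h1 : ((AddMonoidHom.snd _ _).comp e.toAddMonoidHom) (e.symm (v, (0 : G))) = 0 := by simp
    rw [h1]
    exact mem_of_mem_nhds (hW k)
  · intro x hx
    by_cases h2 : (e x).2 = 0
    · right
      have h1 : (e x).1 ≠ 0 := by
        intro h1
        apply hx
        have h3 : e x = 0 := Prod.ext h1 h2
        exact (map_eq_zero_iff e e.injective).1 h3
      exact exists_coord_ne _ _ h1
    · left
      refine ⟨{(e x).2}ᶜ, isOpen_compl_singleton, fun h => h2 (by simpa using h.symm), fun h => ?_⟩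
      exact h rfl

end Pool.Agent.Q213.PN
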