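import Pool.Agent.H376R3.PC.Asm

/-!
# Embeddings into powers of the circle with prescribed labels
-/

set_option autoImplicit false

universe u

namespace Pool.Agent.Q213.PN

open Cardinal Topology Pool.Agent.H376R3.PC

theorem type_lemma_v {B M J : Type u} {V : Type} [Nonempty V] (hV : #V ≤ 𝔠) (n : ℕ) (r : B → ℕ) (e0 : M → B)
    (he0 : Function.Injective e0) (hr : ∀ m, r (e0 m) = n) (hJ : ℵ₁ ≤ #J)
    (hfam : InjFam J #M) (hc : 𝔠 ≤ #M) (hB : #B ≤ 2 ^ #J) :
    ∃ (X : Type u) (ψ : B → X → T) (Ξ : Type u) (s : Ξ → (ℕ → Bool) → M) (tt : M → V),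
      (∀ w, r w • ψ w = 0) ∧
      (∀ c : B →₀ ℤ, (c.sum fun w k => k • ψ w) = 0 → ∀ w, (r w : ℤ) ∣ c w) ∧
      (∀ ξ a, Continuous fun t => ψ (e0 (s ξ t)) a) ∧
      (∀ A : Set X, A.Countable → ∀ v : ℕ → X → T, (∀ m a, n • v m a = 0) →
        ∃ ξ, ∀ m, ∃ t, ∀ a ∈ A, ψ (e0 (s ξ t)) a = v m a) ∧
      (∀ A : Set X, A.Countable → ∀ v : V, ∃ m, tt m = v ∧ ∀ a ∈ A, ψ (e0 m) a = 0) := by
  classical
  obtain ⟨Δ, dd, hΔ, hdd⟩ := hfam
  let d : Δ → J → ℕ := fun δ j => 2 * dd δ j
  have hd : ∀ A : Set J, A.Countable → ∃ δ, Set.InjOn (d δ) A := by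
    intro A hA
    obtain ⟨δ, hδ⟩ := hdd A hA
    refine ⟨δ, fun x hx y hy hxy => hδ hx hy ?_⟩
    have h1 : 2 * dd δ x = 2 * dd δ y := hxy
    omega
  obtain ⟨emb⟩ : Nonempty (V ↪ (ℕ → Bool)) := by
    rw [← Cardinal.le_def]
    simpa using hV
  obtain ⟨W, _, hW, hWb⟩ := exists_omega1.{u}
  have hJ0 : ℵ₀ ≤ #J := (Cardinal.aleph0_le_aleph 1).trans hJ
  have hM0 : ℵ₀ ≤ #M := Cardinal.aleph0_le_continuum.trans hc
  have hX : #(W × LL J) = #J := by
    rw [Cardinal.mk_prod, Cardinal.lift_id, Cardinal.lift_id, mk_LL hJ0, hW]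
    exact Cardinal.mul_eq_right hJ0 hJ (Cardinal.aleph_pos 1).ne'
  obtain ⟨e⟩ := Cardinal.eq.1 hX
  have hΞ : #((Δ × W) × (ℕ → Bool)) ≤ #M := by
    rw [Cardinal.mk_prod, Cardinal.mk_prod]
    simp only [Cardinal.lift_id, Cardinal.lift_uzero]
    have h1 : Cardinal.lift.{u} #(ℕ → Bool) = 𝔠 := by simp
    rw [h1, hW]
    calc #Δ * ℵ₁ * 𝔠 ≤ #M * #M * #M := by
          gcongr
          exact Cardinal.aleph_one_le_continuum.trans hc
      _ = #M := by rw [Cardinal.mul_eq_self hM0, Cardinal.mul_eq_self hM0]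
  obtain ⟨g⟩ : Nonempty ((Δ × W) × (ℕ → Bool) ↪ M) := by
    have := hΞ
    rwa [Cardinal.le_def] at this
  have hMB : #M ≤ #B := Cardinal.mk_le_of_injective he0
  have hB0 : ℵ₀ ≤ #B := hM0.trans hMB
  have hΞ2 : #(Δ × W) ≤ #M := by
    rw [Cardinal.mk_prod]
    simp only [Cardinal.lift_id]
    rw [hW]
    calc #Δ * ℵ₁ ≤ #M * #M := by
          gcongr
          exact Cardinal.aleph_one_le_continuum.trans hc
      _ = #M := Cardinal.mul_eq_self hM0
  obtain ⟨ι⟩ : Nonempty (((Δ × W) ⊕ B) ↪ (J → Bool)) := by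
    rw [← Cardinal.le_def, Cardinal.mk_sum]
    simp only [Cardinal.lift_id]
    have h2 : #(J → Bool) = 2 ^ #J := by simp
    rw [h2]
    calc #(Δ × W) + #B ≤ #B + #B := by gcongr; exact hΞ2.trans hMB
      _ = #B := Cardinal.add_eq_self hB0
      _ ≤ _ := hB
  obtain ⟨q, hqc, hqn, hqs⟩ := exists_cantor n
  choose τ hτ1 hτ2 using exists_tau
  let G : (Δ × W) × (ℕ → Bool) → B := fun y => e0 (g y)
  have hG : Function.Injective G := he0.comp g.injective
  let code : B → (J ⊕ ℕ → Bool) := Function.extend G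
    (fun y => Sum.elim (ι (Sum.inl y.1)) y.2) (fun w => Sum.elim (ι (Sum.inr w)) (fun _ => false))
  have hcode1 : ∀ y, code (G y) = Sum.elim (ι (Sum.inl y.1)) y.2 := fun y => hG.extend_apply _ _ y
  have hcode2 : ∀ w, (¬ ∃ y, G y = w) → code w = Sum.elim (ι (Sum.inr w)) (fun _ => false) :=
    fun w hw => Function.extend_apply' _ _ _ hw
  have hcode : Function.Injective code := by
    intro w w' hww
    have hl : ∀ j, code w (Sum.inl j) = code w' (Sum.inl j) := fun j => by rw [hww]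
    have hrr : ∀ j, code w (Sum.inr j) = code w' (Sum.inr j) := fun j => by rw [hww]
    by_cases h1 : ∃ y, G y = w
    · obtain ⟨y, rfl⟩ := h1
      by_cases h2 : ∃ y, G y = w'
      · obtain ⟨y', rfl⟩ := h2
        simp only [hcode1, Sum.elim_inl, Sum.elim_inr] at hl hrr
        have h3 := ι.injective (funext hl)
        have h4 : y.1 = y'.1 := by simpa using h3
        have h5 : y.2 = y'.2 := funext hrr
        rw [Prod.ext h4 h5]
      · simp only [hcode1, hcode2 _ h2, Sum.elim_inl] at hl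
        have h3 := ι.injective (funext hl)
        simp at h3
    · by_cases h2 : ∃ y, G y = w'
      · obtain ⟨y', rfl⟩ := h2
        simp only [hcode1, hcode2 _ h1, Sum.elim_inl] at hl
        have h3 := ι.injective (funext hl)
        simp at h3
      · simp only [hcode2 _ h1, hcode2 _ h2, Sum.elim_inl] at hl
        have h3 := ι.injective (funext hl)
        simpa using h3
  let ψ : B → (W × LL J) → T := Function.extend G
    (fun y x => if x.1 < y.1.2 then q (fun i => y.2 (Nat.pair (d y.1.1 (e x)) i))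
      else vec (code (G y)) (τ n) x.2) (fun w x => vec (code w) (τ (r w)) x.2)
  have hψ1 : ∀ y, ψ (G y) = fun x => if x.1 < y.1.2 then
      q (fun i => y.2 (Nat.pair (d y.1.1 (e x)) i)) else vec (code (G y)) (τ n) x.2 :=
    fun y => hG.extend_apply _ _ y
  have hψ2 : ∀ w, (¬ ∃ y, G y = w) → ψ w = fun x => vec (code w) (τ (r w)) x.2 :=
    fun w hw => Function.extend_apply' _ _ _ hw
  have hrG : ∀ y, r (G y) = n := fun y => hr _
  obtain ⟨w00, -⟩ := hWb ∅ Set.countable_empty
  have hψ3 : ∀ w, ∃ α0 : W, ∀ x : W × LL J, ¬ (x.1 < α0) →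
      ψ w x = vec (code w) (τ (r w)) x.2 := by
    intro w
    by_cases h1 : ∃ y, G y = w
    · obtain ⟨y, rfl⟩ := h1
      refine ⟨y.1.2, fun x hx => ?_⟩
      rw [hψ1, hrG]
      simp only [hx, if_false]
    · exact ⟨w00, fun x _ => by rw [hψ2 w h1]⟩
  have hvec0 : ∀ (c : J ⊕ ℕ → Bool) (m : ℕ) (l : LL J), m • vec c (τ m) l = 0 := by
    intro c m l
    unfold vec
    split_ifs
    · exact hτ1 m
    · simp
  let tt : M → V := Function.extend g
    (fun y => Function.invFun emb (fun i => y.2 (Nat.pair (2 * i + 1) 0)))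
    (fun _ => Classical.arbitrary V)
  have htt : ∀ y, tt (g y) = Function.invFun emb (fun i => y.2 (Nat.pair (2 * i + 1) 0)) :=
    fun y => g.injective.extend_apply _ _ y
  refine ⟨W × LL J, ψ, Δ × W, fun ξ t => g (ξ, t), tt, ?_, ?_, ?_, ?_, ?_⟩
  · intro w
    by_cases h1 : ∃ y, G y = w
    · obtain ⟨y, rfl⟩ := h1
      funext x
      rw [hψ1, hrG]
      simp only [Pi.smul_apply, Pi.zero_apply]
      split_ifs
      · exact hqn _
      · exact hvec0 _ _ _
    · funext x
      rw [hψ2 w h1]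
      simp only [Pi.smul_apply, Pi.zero_apply]
      exact hvec0 _ _ _
  · intro c hcs w
    choose α hα using hψ3
    by_cases hw : w ∈ c.support
    swap
    · rw [Finsupp.notMem_support_iff.1 hw]; exact dvd_zero _
    obtain ⟨β, hβ⟩ := hWb (↑(c.support.image α)) (c.support.image α).countable_toSet
    obtain ⟨l, hl1, hl2⟩ := exists_isolate code hcode c.support w
    have h1 := congrFun hcs (β, l)
    rw [Finsupp.sum, Finset.sum_apply, Finset.sum_eq_single w] at h1
    · simp only [Pi.smul_apply, Pi.zero_apply] at h1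
      rw [hα w (β, l) (not_lt.2 (hβ _ (by exact_mod_cast Finset.mem_image_of_mem α hw)).le)] at h1
      simp only [vec, hl1, if_true] at h1
      exact hτ2 _ _ h1
    · intro w' hw' hne
      simp only [Pi.smul_apply]
      rw [hα w' (β, l) (not_lt.2 (hβ _ (by exact_mod_cast Finset.mem_image_of_mem α hw')).le)]
      simp only [vec, hl2 w' hw' hne, if_false, smul_zero]
    · intro h; exact absurd hw h
  · intro ξ a
    have h1 : (fun t => ψ (e0 (g (ξ, t))) a) = fun t => if a.1 < ξ.2 then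
        q (fun i => t (Nat.pair (d ξ.1 (e a)) i)) else vec (Sum.elim (ι (Sum.inl ξ)) t) (τ n) a.2 := by
      funext t
      have h2 := congrFun (hψ1 (ξ, t)) a
      rw [hcode1] at h2
      exact h2
    rw [h1]
    by_cases h2 : a.1 < ξ.2
    · simp only [h2, if_true]
      exact hqc.comp (by fun_prop)
    · simp only [h2, if_false]
      apply IsLocallyConstant.continuous
      rw [IsLocallyConstant.iff_eventually_eq]
      intro t
      have h3 : ∀ b ∈ a.2.1, ∀ᶠ t' in 𝓝 t,
          Sum.elim (ι (Sum.inl ξ)) t' b = Sum.elim (ι (Sum.inl ξ)) t b := by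
        intro b _
        rcases b with b | b
        · simp
        · have : Continuous fun t' : ℕ → Bool => t' b := continuous_apply b
          have h4 : ∀ᶠ t' in 𝓝 t, t' b ∈ ({t b} : Set Bool) :=
            (this.continuousAt (x := t)) (IsOpen.mem_nhds (isOpen_discrete _) (Set.mem_singleton _))
          filter_upwards [h4] with t' ht'
          simpa using ht'
      have h5 := (Filter.eventually_all_finset a.2.1).2 h3
      filter_upwards [h5] with t' ht'
      have h6 : Mem (Sum.elim (ι (Sum.inl ξ)) t') a.2 ↔ Mem (Sum.elim (ι (Sum.inl ξ)) t) a.2 := by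
        unfold Mem
        constructor
        · intro h b hb
          rw [← ht' b hb]; exact h b hb
        · intro h b hb
          rw [ht' b hb]; exact h b hb
      simp only [vec, h6]
  · intro A hA v hv
    obtain ⟨β, hβ⟩ := hWb (Prod.fst '' A) (hA.image _)
    obtain ⟨δ, hδ⟩ := hd (e '' A) (hA.image _)
    refine ⟨(δ, β), fun m => ?_⟩
    choose! z hz using fun (a : W × LL J) => hqs (v m a) (hv m a)
    let t : ℕ → Bool := fun k =>
      if h : ∃ a ∈ A, d δ (e a) = (Nat.unpair k).1 then z h.choose (Nat.unpair k).2 else false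
    refine ⟨t, fun a ha => ?_⟩
    have h2 := congrFun (hψ1 ((δ, β), t)) a
    have h3 : a.1 < β := hβ _ ⟨a, ha, rfl⟩
    have h4 : ψ (e0 (g ((δ, β), t))) a = q (fun i => t (Nat.pair (d δ (e a)) i)) := by
      refine h2.trans ?_
      simp only [h3, if_true]
    rw [h4, ← hz a]
    congr 1
    funext i
    have h5 : ∃ a' ∈ A, d δ (e a') = (Nat.unpair (Nat.pair (d δ (e a)) i)).1 :=
      ⟨a, ha, by simp⟩
    simp only [t]
    rw [dif_pos h5]
    have h6 := h5.choose_spec
    have h7 : h5.choose = a := by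
      have h8 := hδ (Set.mem_image_of_mem e h6.1) (Set.mem_image_of_mem e ha)
        (by rw [h6.2]; simp)
      exact e.injective h8
    rw [h7]
    simp
  · intro A hA v
    obtain ⟨β, hβ⟩ := hWb (Prod.fst '' A) (hA.image _)
    obtain ⟨δ, hδ⟩ := hd (e '' A) (hA.image _)
    obtain ⟨z0, hz0⟩ := hqs 0 (by simp)
    let t : ℕ → Bool := fun k =>
      if (Nat.unpair k).1 % 2 = 0 then z0 (Nat.unpair k).2 else emb v ((Nat.unpair k).1 / 2)
    refine ⟨g ((δ, β), t), ?_, fun a ha => ?_⟩
    · rw [htt]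
      have h1 : (fun i => t (Nat.pair (2 * i + 1) 0)) = emb v := by
        funext i
        simp only [t, Nat.unpair_pair]
        have h9 : (2 * i + 1) / 2 = i := by omega
        rw [if_neg (by omega), h9]
      show Function.invFun emb (fun i => t (Nat.pair (2 * i + 1) 0)) = v
      rw [h1]
      exact Function.leftInverse_invFun emb.injective v
    · have h2 := congrFun (hψ1 ((δ, β), t)) a
      have h3 : a.1 < β := hβ _ ⟨a, ha, rfl⟩
      have h4 : ψ (e0 (g ((δ, β), t))) a = q (fun i => t (Nat.pair (d δ (e a)) i)) := by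
        refine h2.trans ?_
        simp only [h3, if_true]
      rw [h4, ← hz0]
      congr 1
      funext i
      have h5 : (d δ (e a)) % 2 = 0 := by
        show (2 * dd δ (e a)) % 2 = 0
        omega
      simp only [t, Nat.unpair_pair]
      rw [if_pos h5]

theorem type0_lemma_v (h6 : TaskPC6.{u}) {E M J : Type u} {V : Type} [Nonempty V]
    (hV : #V ≤ 𝔠) [AddCommGroup E] (e : M → E)
    (he : LinearIndependent ℤ e) (hJ : ℵ₁ ≤ #J) (hfam : InjFam J #M) (hc : 𝔠 ≤ #M)
    (hE : #E ≤ 2 ^ #J) :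
    ∃ (X : Type u) (φ : E →+ (X → T)) (Ξ : Type u) (s : Ξ → (ℕ → Bool) → M) (tt : M → V),
      Function.Injective φ ∧ (∀ ξ a, Continuous fun t => φ (e (s ξ t)) a) ∧
      (∀ A : Set X, A.Countable → ∀ v : ℕ → X → T,
        ∃ ξ, ∀ m, ∃ t, ∀ a ∈ A, φ (e (s ξ t)) a = v m a) ∧
      ∀ A : Set X, A.Countable → ∀ v : V, ∃ m, tt m = v ∧ ∀ a ∈ A, φ (e m) a = 0 := by
  classical
  have he' := he.linearIndepOn_id
  rw [linearIndepOn_iff] at he'
  obtain ⟨S, hS0, hS1, hS2⟩ := h6 E (Set.range e) (by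
    intro c hc1 hc2 x
    have := he' c ((Finsupp.mem_supported ℤ c).2 hc1) (by
      rw [Finsupp.linearCombination_apply]; exact hc2)
    rw [this]; simp)
  let e0 : M → S := fun m => ⟨e m, hS0 ⟨m, rfl⟩⟩
  have he0 : Function.Injective e0 := by
    intro m m' h
    have : e m = e m' := congrArg Subtype.val h
    exact he.injective this
  have hr : ∀ m, addOrderOf ((e0 m : S) : E) = 0 := by
    intro m
    have h1 : (addOrderOf (e m) : ℤ) • e m = 0 := by
      rw [natCast_zsmul]; exact addOrderOf_nsmul_eq_zero _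
    have h2 := linearIndependent_iff.1 he (Finsupp.single m (addOrderOf (e m) : ℤ)) (by
      rw [Finsupp.linearCombination_single]; exact h1)
    have h3 := DFunLike.congr_fun h2 m
    simpa using h3
  obtain ⟨X, ψ, Ξ, s, tt, hψ0, hψ1, hψc, hψh, hψt⟩ := type_lemma_v (B := S) (M := M) (J := J) hV 0
    (fun w => addOrderOf (w : E)) e0 he0 hr hJ hfam hc
    ((Cardinal.mk_le_of_injective Subtype.val_injective).trans hE)
  have hS1' : ∀ c : S →₀ ℤ, Finsupp.linearCombination ℤ (fun w : S => (w : E)) c = 0 →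
      ∀ w, c w • (w : E) = 0 := by
    intro c hc w
    have h1 := hS1 (Finsupp.embDomain (Function.Embedding.subtype (· ∈ S)) c) (by
      rw [Finsupp.support_embDomain]
      intro x hx
      simp only [Finset.coe_map, Set.mem_image] at hx
      obtain ⟨y, -, rfl⟩ := hx
      exact y.2) (by
      rw [Finsupp.sum_embDomain]
      rw [Finsupp.linearCombination_apply] at hc
      exact hc) (w : E)
    have h2 : (Finsupp.embDomain (Function.Embedding.subtype (· ∈ S)) c) (w : E) = c w :=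
      Finsupp.embDomain_apply_self (Function.Embedding.subtype (· ∈ S)) c w
    rwa [h2] at h1
  have hker : ∀ c : S →₀ ℤ, Finsupp.linearCombination ℤ (fun w : S => (w : E)) c = 0 →
      Finsupp.linearCombination ℤ ψ c = 0 := by
    intro c hc
    rw [Finsupp.linearCombination_apply]
    apply Finset.sum_eq_zero
    intro w _
    have h1 := addOrderOf_dvd_iff_zsmul_eq_zero.2 (hS1' c hc w)
    obtain ⟨k, hk⟩ := h1
    show c w • ψ w = 0
    rw [hk, mul_comm, mul_smul, Nat.cast_smul_eq_nsmul ℤ, hψ0, smul_zero]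
  obtain ⟨φ, hφ⟩ := exists_ext
    (Finsupp.linearCombination ℤ (fun w : S => (w : E))).toAddMonoidHom
    (Finsupp.linearCombination ℤ ψ).toAddMonoidHom hker
  have hφ1 : ∀ w : S, φ (w : E) = ψ w := by
    intro w
    have := hφ (Finsupp.single w 1)
    simpa using this
  refine ⟨X, φ, Ξ, s, tt, ?_, ?_, ?_, ?_⟩
  · rw [injective_iff_map_eq_zero]
    intro x hx
    by_contra hx0
    obtain ⟨n, c, hn, hcS, hnc⟩ := hS2 x hx0
    apply hn
    -- restrict the combination to `S`
    let c' : S →₀ ℤ := c.subtypeDomain (· ∈ S)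
    have h1 : Finsupp.linearCombination ℤ (fun w : S => (w : E)) c' = n • x := by
      rw [hnc, Finsupp.linearCombination_apply]
      exact Finsupp.sum_subtypeDomain_index (p := (· ∈ S)) (v := c) (h := fun x n => n • x)
        (fun x hx => hcS hx)
    have h2 : Finsupp.linearCombination ℤ ψ c' = 0 := by
      have := hφ c'
      have h3 : φ (n • x) = 0 := by rw [map_zsmul, hx, smul_zero]
      rw [← h1] at h3
      exact this.symm.trans h3
    rw [← h1, Finsupp.linearCombination_apply]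
    apply Finset.sum_eq_zero
    intro w _
    have h4 := hψ1 c' (by rw [Finsupp.linearCombination_apply] at h2; exact h2) w
    exact addOrderOf_dvd_iff_zsmul_eq_zero.1 h4
  · intro ξ a
    have := hψc ξ a
    have h2 : (fun t => φ (e (s ξ t)) a) = fun t => ψ (e0 (s ξ t)) a := by
      funext t
      exact congrFun (hφ1 (e0 (s ξ t))) a
    rw [h2]; exact this
  · intro A hA v
    obtain ⟨ξ, hξ⟩ := hψh A hA v (fun m a => by simp)
    refine ⟨ξ, fun m => ?_⟩
    obtain ⟨t, ht⟩ := hξ m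
    exact ⟨t, fun a ha => (congrFun (hφ1 (e0 (s ξ t))) a).trans (ht a ha)⟩
  · intro A hA v
    obtain ⟨m, hm1, hm2⟩ := hψt A hA v
    exact ⟨m, hm1, fun a ha => (congrFun (hφ1 (e0 m)) a).trans (hm2 a ha)⟩

theorem assembly_v {G : Type u} [AddCommGroup G] {I : Type} [Fintype I] (P : I → Piece G)
    (hcross : ∀ i i', i ≠ i' → ∀ ξ t, (P i').j ((P i).S ξ t) = 0)
    (X0 : Type u) (j0 : G →+ (X0 → T)) (R : Set G) (hR : R.Finite)
    (hR2 : ∀ x, ∃ r ∈ R, j0 r = j0 x) (h0 : ∀ i ξ t, j0 ((P i).S ξ t) = 0)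
    (hinj : ∀ x, (∀ i, (P i).j x = 0) → j0 x = 0 → x = 0) :
    ∃ τ : TopologicalSpace G, @IsTopologicalAddGroup G τ _ ∧ @T2Space G τ ∧
      (∀ U : ℕ → Set G, (∀ n, IsOpen[τ] (U n)) → (∀ n, (U n).Nonempty) →
        ∃ f : (ℕ → Bool) → G, @Continuous _ _ _ τ f ∧ ∀ n, ∃ z, f z ∈ U n) ∧
      ∀ W : ℕ → Set G, (∀ k, W k ∈ @nhds G τ 0) →
        ∃ (A : ∀ i, Set (P i).X) (A0 : Set X0), (∀ i, (A i).Countable) ∧ A0.Countable ∧
          ∀ g, (∀ i, ∀ a ∈ A i, (P i).j g a = 0) → (∀ a ∈ A0, j0 g a = 0) → ∀ k, g ∈ W k := by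
  classical
  let Y : Type u := (Σ i, (P i).X) ⊕ X0
  let F : G →+ (Y → T) :=
    { toFun := fun x y => Sum.elim (fun a : Σ i, (P i).X => (P a.1).j x a.2) (fun a => j0 x a) y
      map_zero' := by
        funext y
        rcases y with ⟨i, a⟩ | a <;> simp
      map_add' := by
        intro x x'
        funext y
        rcases y with ⟨i, a⟩ | a <;> simp }
  have hF1 : ∀ x i a, F x (Sum.inl ⟨i, a⟩) = (P i).j x a := fun _ _ _ => rfl
  have hF2 : ∀ x a, F x (Sum.inr a) = j0 x a := fun _ _ => rfl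
  have hFi : Function.Injective F := by
    rw [injective_iff_map_eq_zero]
    intro x hx
    apply hinj x
    · intro i
      funext a
      rw [← hF1 x i a, hx]; rfl
    · funext a
      rw [← hF2 x a, hx]; rfl
  let τ : TopologicalSpace G := TopologicalSpace.induced F inferInstance
  have hind : IsInducing F := ⟨rfl⟩
  have hemb : IsEmbedding F := ⟨hind, hFi⟩
  refine ⟨τ, topologicalAddGroup_induced F, hemb.t2Space, ?_, ?_⟩
  swap
  · intro W hW
    have hO : ∀ k, ∃ Fn : Finset Y, ∀ y, (∀ a ∈ Fn, F y a = 0) → y ∈ W k := by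
      intro k
      obtain ⟨U, hUW, hU, h0U⟩ := mem_nhds_iff.1 (hW k)
      obtain ⟨O, hO, hOU⟩ := isOpen_induced_iff.1 hU
      have hxO : F 0 ∈ O := by
        have : (0 : G) ∈ F ⁻¹' O := by rw [hOU]; exact h0U
        exact this
      obtain ⟨Fn, u, hu, hsub⟩ := isOpen_pi_iff.1 hO (F 0) hxO
      refine ⟨Fn, fun y hy => hUW ?_⟩
      rw [← hOU]
      apply hsub
      intro a ha
      have h1 : F 0 a = 0 := by rw [map_zero]; rfl
      rw [hy a ha, ← h1]
      exact (hu a ha).2
    choose Fn hFn using hO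
    let A : Set Y := ⋃ n, (↑(Fn n) : Set Y)
    have hA : A.Countable := Set.countable_iUnion fun n => (Fn n).countable_toSet
    refine ⟨fun i => {a | (Sum.inl ⟨i, a⟩ : Y) ∈ A}, {a | (Sum.inr a : Y) ∈ A}, fun i => ?_, ?_,
      fun g hg1 hg2 k => hFn k g ?_⟩
    · exact hA.preimage (f := fun a => (Sum.inl ⟨i, a⟩ : Y)) (by
        intro a b hab
        have h1 := Sum.inl.inj hab
        exact eq_of_heq (Sigma.mk.inj h1).2)
    · exact hA.preimage (f := fun a => (Sum.inr a : Y)) Sum.inr_injective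
    · intro y hy
      have hyA : y ∈ A := Set.mem_iUnion.2 ⟨k, hy⟩
      rcases y with ⟨i, a⟩ | a
      · exact hg1 i a hyA
      · exact hg2 a hyA
  intro U hU hUne
  choose x hx using hUne
  have hO : ∀ n, ∃ Fn : Finset Y, ∀ y, (∀ a ∈ Fn, F y a = F (x n) a) → y ∈ U n := by
    intro n
    obtain ⟨O, hO, hOU⟩ := isOpen_induced_iff.1 (hU n)
    have hxO : F (x n) ∈ O := by
      have : x n ∈ F ⁻¹' O := by rw [hOU]; exact hx n
      exact this
    obtain ⟨Fn, u, hu, hsub⟩ := isOpen_pi_iff.1 hO (F (x n)) hxO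
    refine ⟨Fn, fun y hy => ?_⟩
    rw [← hOU]
    apply hsub
    intro a ha
    rw [hy a ha]
    exact (hu a ha).2
  choose Fn hFn using hO
  let A : Set Y := ⋃ n, (↑(Fn n) : Set Y)
  have hA : A.Countable := Set.countable_iUnion fun n => (Fn n).countable_toSet
  choose r hrR hr0 using fun m => hR2 (x m)
  have hξ : ∀ i, ∃ ξ, ∀ m, ∃ t, ∀ a, (Sum.inl ⟨i, a⟩ : Y) ∈ A →
      (P i).j ((P i).S ξ t) a = (P i).j (x m - r m) a := by
    intro i
    obtain ⟨ξ, hξ⟩ := (P i).hit {a | (Sum.inl ⟨i, a⟩ : Y) ∈ A}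
      (hA.preimage (f := fun a => (Sum.inl ⟨i, a⟩ : Y)) (by
        intro a b hab
        have h1 := Sum.inl.inj hab
        exact eq_of_heq (Sigma.mk.inj h1).2)) (fun m => x m - r m)
    exact ⟨ξ, fun m => by
      obtain ⟨t, ht⟩ := hξ m
      exact ⟨t, fun a ha => ht a ha⟩⟩
  choose ξ hξ using hξ
  let : TopologicalSpace R := ⊥
  have : DiscreteTopology R := ⟨rfl⟩
  have : Finite R := hR
  obtain ⟨r0, hr0', -⟩ := hR2 0
  have : Nonempty R := ⟨⟨r0, hr0'⟩⟩
  let Z : Type u := R × (I → ℕ → Bool)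
  let : MetricSpace Z := TopologicalSpace.metrizableSpaceMetric Z
  obtain ⟨q, hq, hqs⟩ := exists_nat_bool_continuous_surjective_of_compact Z
  let f : Z → G := fun z => (z.1 : G) + ∑ i, (P i).S (ξ i) (z.2 i)
  have hfi : ∀ (z : Z) i a, F (f z) (Sum.inl ⟨i, a⟩) =
      (P i).j (z.1 : G) a + (P i).j ((P i).S (ξ i) (z.2 i)) a := by
    intro z i a
    rw [hF1]
    simp only [f, map_add, map_sum, Pi.add_apply, Finset.sum_apply]
    congr 1
    rw [Finset.sum_eq_single i]
    · intro i' _ hne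
      rw [hcross i' i hne]; rfl
    · intro h; exact absurd (Finset.mem_univ i) h
  have hf0 : ∀ (z : Z) a, F (f z) (Sum.inr a) = j0 (z.1 : G) a := by
    intro z a
    rw [hF2]
    simp only [f, map_add, map_sum, Pi.add_apply, Finset.sum_apply]
    rw [Finset.sum_eq_zero]
    · simp
    · intro i _
      rw [h0]; rfl
  have hfc : Continuous f := by
    rw [hind.continuous_iff]
    refine continuous_pi fun y => ?_
    rcases y with ⟨i, a⟩ | a
    · have h1 : (fun z : Z => F (f z) (Sum.inl ⟨i, a⟩)) = fun z : Z =>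
          (P i).j (z.1 : G) a + (P i).j ((P i).S (ξ i) (z.2 i)) a := funext fun z => hfi z i a
      show Continuous fun z : Z => F (f z) (Sum.inl ⟨i, a⟩)
      rw [h1]
      refine Continuous.add ?_ ?_
      · have h2 : Continuous fun y : R => (P i).j (y : G) a := continuous_of_discreteTopology
        exact h2.comp continuous_fst
      · have h2 := (P i).cont (ξ i) a
        exact h2.comp ((continuous_apply i).comp continuous_snd)
    · show Continuous fun z : Z => F (f z) (Sum.inr a)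
      have h1 : (fun z : Z => F (f z) (Sum.inr a)) = fun z : Z => j0 (z.1 : G) a :=
        funext fun z => hf0 z a
      rw [h1]
      have h2 : Continuous fun y : R => j0 (y : G) a := continuous_of_discreteTopology
      exact h2.comp continuous_fst
  refine ⟨fun z => f (q z), hfc.comp hq, fun n => ?_⟩
  choose t ht using fun i => hξ i n
  obtain ⟨z, hz⟩ := hqs (⟨r n, hrR n⟩, t)
  refine ⟨z, ?_⟩
  show f (q z) ∈ U n
  rw [hz]
  apply hFn
  intro y hy
  have hyA : y ∈ A := Set.mem_iUnion.2 ⟨n, hy⟩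
  rcases y with ⟨i, a⟩ | a
  · rw [hfi, ht i a hyA, hF1]
    simp
  · rw [hf0, hF2]
    exact congrFun (hr0 n) a

end Pool.Agent.Q213.PN
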