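import Pool.Agent.Q213.PN.G
import Pool.Agent.Q213.PN.F
import Pool.Agent.H376R3.PC.Final

/-!
# The unbounded case and the theorem
-/

set_option autoImplicit false

universe u

namespace Pool.Agent.Q213.PN

open Cardinal Topology

theorem baer_rat : Module.Baer ℤ (V ℚ) := by
  have : DivisibleBy (V ℚ) ℤ :=
    { div := fun x n => ((n : ℚ)⁻¹) • x
      div_zero := fun x => by simp
      div_cancel := fun {n} x hn => by
        rw [← Int.cast_smul_eq_zsmul ℚ, smul_smul, mul_inv_cancel₀ (by exact_mod_cast hn),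
          one_smul] }
  exact Module.Baer.of_divisible _

/-- The conclusion for unbounded groups. -/
def Concl2 (G : Type u) [AddCommGroup G] : Prop :=
  ∃ (τ : TopologicalSpace G) (f : G →+ V ℚ), @IsTopologicalAddGroup G τ _ ∧ @T2Space G τ ∧
      (∀ U : ℕ → Set G, (∀ n, IsOpen[τ] (U n)) → (∀ n, (U n).Nonempty) →
        ∃ f : (ℕ → Bool) → G, @Continuous _ _ _ τ f ∧ ∀ n, ∃ z, f z ∈ U n) ∧
      ∀ W : ℕ → Set G, (∀ k, W k ∈ @nhds G τ 0) → ∀ v, ∃ e, (∀ k, e ∈ W k) ∧ f e = v

theorem concl2 {G : Type u} [AddCommGroup G] (hA : Pool.Agent.H376R3.PC.HypA G) (M : Type u)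
    (e : M → G) (n0 : ℕ) (J : Type u) (he : LinearIndependent ℤ e) (hn0 : 0 < n0) (hJ : ℵ₁ ≤ #J)
    (hM : 𝔠 ≤ #M) (hcard : #(Set.range fun x : G => n0 • x) ≤ 2 ^ #J)
    (hfam : Pool.Agent.H376R3.PC.InjFam J #M) : Concl2 G := by
  classical
  obtain ⟨N, hN, hmin⟩ : ∃ N : ℕ, 0 < N ∧ ∀ n : ℕ, 0 < n →
      #(Set.range fun x : G => N • x) ≤ #(Set.range fun x : G => n • x) := by
    obtain ⟨c, ⟨N, hN, rfl⟩, hc⟩ := Cardinal.lt_wf.has_min
      {c | ∃ n : ℕ, 0 < n ∧ c = #(Set.range fun x : G => n • x)} ⟨_, 1, one_pos, rfl⟩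
    exact ⟨N, hN, fun n hn => not_lt.1 (hc _ ⟨n, hn, rfl⟩)⟩
  obtain ⟨D, E0, I, hI, P, hE1, hE2, hP1, hP2, hP3, hDE, hess, hDinj, -⟩ :=
    Pool.Agent.H376R3.PC.prime_part hA N hN
  let e' : M → E0 := fun m => ⟨N • e m, hE1 _⟩
  have he' : LinearIndependent ℤ e' := by
    rw [linearIndependent_iff]
    intro l hl
    have h1 : Finsupp.linearCombination ℤ e ((N : ℤ) • l) = 0 := by
      rw [map_smul]
      have h2 := congrArg (fun z : E0 => (z : G)) hl
      simp only [Finsupp.linearCombination_apply, Finsupp.sum, AddSubgroup.val_finsetSum,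
        AddSubgroup.coe_zsmul, ZeroMemClass.coe_zero, e'] at h2
      rw [Finsupp.linearCombination_apply, Finsupp.sum, Finset.smul_sum, ← h2]
      apply Finset.sum_congr rfl
      intro m _
      rw [smul_comm, natCast_zsmul]
    have h2 := (linearIndependent_iff.1 he) _ h1
    have hN' : (N : ℤ) ≠ 0 := by exact_mod_cast hN.ne'
    ext m
    have h3 := DFunLike.congr_fun h2 m
    have h4 : (N : ℤ) * l m = 0 := by simpa using h3
    exact (mul_eq_zero.1 h4).resolve_left hN'
  have hNe : #M ≤ #(Set.range fun x : G => N • x) :=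
    Cardinal.mk_le_of_injective (f := fun m => ⟨N • e m, e m, rfl⟩) (by
      intro m m' hmm
      have h1 : e' m = e' m' := Subtype.ext (Subtype.mk.inj hmm)
      exact he'.injective h1)
  have hE3 : #E0 ≤ 2 ^ #J := by
    refine hE2.trans ?_
    rw [max_eq_right (Cardinal.aleph0_le_continuum.trans (hM.trans hNe))]
    exact (hmin n0 hn0).trans hcard
  obtain ⟨X, φ, Ξ, s, tt, hφ, hφc, hφh, hφt⟩ :=
    type0_lemma_v Pool.Agent.H376R3.PC.pc6 (mk_V_le ℚ) e' he' hJ hfam hM hE3
  let Φ : D × E0 →+ G := D.subtype.coprod E0.subtype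
  let Ψ : D × E0 →+ (X → T) := φ.comp (AddMonoidHom.snd _ _)
  obtain ⟨j0, hj0⟩ := Pool.Agent.H376R3.PC.exists_ext Φ Ψ (by
    rintro ⟨d, x⟩ h
    have h1 : (d : G) + (x : G) = 0 := h
    have h2 := hDE d d.2 x x.2 h1
    rw [h2, zero_add] at h1
    have h3 : x = 0 := Subtype.ext h1
    show φ x = 0
    rw [h3, map_zero])
  have hj0D : ∀ d ∈ D, j0 d = 0 := by
    intro d hd
    have := hj0 (⟨d, hd⟩, 0)
    simpa [Φ, Ψ] using this
  have hj0E : ∀ x : E0, j0 (x : G) = φ x := by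
    intro x
    have := hj0 (0, x)
    simpa [Φ, Ψ] using this
  -- the label homomorphism
  obtain ⟨f, hf⟩ : ∃ f : G →+ V ℚ, ∀ m, f (e' m : G) = tt m := by
    let ιe : (M →₀ ℤ) →+ G :=
      E0.subtype.comp (Finsupp.linearCombination ℤ e').toAddMonoidHom
    have hιe : Function.Injective ιe := Subtype.val_injective.comp he'
    obtain ⟨f, hf⟩ := baer_rat.extension_property_addMonoidHom ιe hιe
      (Finsupp.linearCombination ℤ tt).toAddMonoidHom
    refine ⟨f, fun m => ?_⟩
    have h1 := DFunLike.congr_fun hf (Finsupp.single m 1)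
    have h2 : ιe (Finsupp.single m 1) = (e' m : G) := by
      show ((Finsupp.linearCombination ℤ e' (Finsupp.single m 1) : E0) : G) = _
      rw [Finsupp.linearCombination_single, one_smul]
    have h3 : (f.comp ιe) (Finsupp.single m 1) = f (e' m : G) := by
      rw [← h2]; rfl
    rw [← h3, h1]
    show Finsupp.linearCombination ℤ tt (Finsupp.single m 1) = _
    rw [Finsupp.linearCombination_single, one_smul]
  let P0 : Pool.Agent.H376R3.PC.Piece G :=
    { X := X
      j := j0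
      Ξ := Ξ
      S := fun ξ t => (e' (s ξ t) : G)
      cont := by
        intro ξ a
        simp only [hj0E]
        exact hφc ξ a
      hit := by
        intro A hA x
        obtain ⟨ξ, hξ⟩ := hφh A hA (fun m => j0 (x m))
        refine ⟨ξ, fun m => ?_⟩
        obtain ⟨t, ht⟩ := hξ m
        exact ⟨t, fun a ha => by rw [hj0E, ht a ha]⟩ }
  let P' : Option I → Pool.Agent.H376R3.PC.Piece G := fun i => Option.elim i P0 P
  obtain ⟨τ, hτ1, hτ2, hτ3, hτ4⟩ := assembly_v P' (by
    intro i i' hne ξ t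
    rcases i with _ | i <;> rcases i' with _ | i'
    · exact absurd rfl hne
    · exact hP2 i' _
    · exact hj0D _ (hP3 i ξ t)
    · exact hP1 i i' (fun h => hne (by rw [h])) ξ t) PEmpty.{u+1} 0 {0} (Set.finite_singleton _)
    (fun x => ⟨0, rfl, Subsingleton.elim _ _⟩) (fun i ξ t => Subsingleton.elim _ _) (by
    intro x hx _
    by_contra hx0
    obtain ⟨n, d, y, hd, hy, hnx, hsum⟩ := hess x hx0
    have h1 : j0 (n • x) = 0 := by
      have := hx none
      rw [map_nsmul]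
      show n • P0.j x = 0
      have h2 : P0.j x = 0 := this
      rw [h2, smul_zero]
    rw [hsum, map_add, hj0D d hd, zero_add] at h1
    have h2 : φ ⟨y, hy⟩ = 0 := by rw [← hj0E]; exact h1
    have h3 : (⟨y, hy⟩ : E0) = 0 := (injective_iff_map_eq_zero φ).1 hφ _ h2
    have h4 : y = 0 := congrArg Subtype.val h3
    rw [h4, add_zero] at hsum
    apply hnx
    rw [hsum]
    apply hDinj d hd
    intro i
    rw [← hsum, map_nsmul]
    have h5 : (P i).j x = 0 := hx (some i)
    rw [h5, smul_zero])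
  refine ⟨τ, f, hτ1, hτ2, hτ3, fun W hW v => ?_⟩
  obtain ⟨A, A0, hA1, -, hA3⟩ := hτ4 W hW
  obtain ⟨m, hm1, hm2⟩ := hφt (A none) (hA1 none) v
  refine ⟨(e' m : G), hA3 _ ?_ (fun a _ => a.elim), by rw [hf, hm1]⟩
  intro i a ha
  rcases i with _ | i
  · show j0 (e' m : G) a = 0
    rw [hj0E]
    exact hm2 a ha
  · show (P i).j (N • e m) a = 0
    rw [hP2 i]
    rfl

/-- Every infinite abelian group with a pseudocompact Hausdorff group topology has one which is
not selectively pseudocompact. -/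
theorem main (G : Type u) [AddCommGroup G] [Infinite G] [TopologicalSpace G]
    [IsTopologicalAddGroup G] [T2Space G] (hG : Pseudocompact G) :
    ∃ σ : TopologicalSpace G, @IsTopologicalAddGroup G σ _ ∧ @T2Space G σ ∧
      @Pseudocompact G σ ∧ ¬ @SelectivelyPseudocompact G σ := by
  by_cases hb : ∃ N : ℕ, 0 < N ∧ ∀ x : G, N • x = 0
  · obtain ⟨N, hN, hb⟩ := hb
    exact bounded hG N hN hb
  push Not at hb
  obtain ⟨K, _, _, _, _, _, ι, hι, hd⟩ := Pool.Agent.H990R4.PC1.pc1 G hG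
  have hA := Pool.Agent.H376R3.PC.hypA_of ι hι hd
  obtain ⟨M, e, n, J, he, hn, hJ, hM, hcard, hfam⟩ :=
    Pool.Agent.H526R3.PC5.pc5 Pool.Agent.H973R3.PC2.pc2 Pool.Agent.H345R3.PC3.pc3 G K ι hι hd hb
  obtain ⟨τ, f, hτ1, hτ2, hτ3, hτ4⟩ := concl2 hA M e n J he hn hJ hM hcard hfam
  obtain ⟨a, -, ha2⟩ := Pool.Agent.H376R3.PC.exists_tau 0
  have ha0 : a ≠ 0 := by
    rintro rfl
    have h1 := ha2 1 (by simp)
    simp at h1
  have hfc : @FeeblyCompact G τ := by
    intro U hU
    obtain ⟨c, hc, hcU⟩ := hτ3 U (fun n => (hU n).1) (fun n => (hU n).2)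
    choose z hz using hcU
    obtain ⟨x, -, hx⟩ := (isCompact_univ (X := ℕ → Bool)).exists_mapClusterPt (u := z)
      (f := Filter.atTop) (by simp)
    refine ⟨c x, fun O hO hxO => ?_⟩
    have h1 : c ⁻¹' O ∈ 𝓝 x := by
      have h2 := hc.isOpen_preimage O hO
      exact h2.mem_nhds hxO
    have h2 := Nat.frequently_atTop_iff_infinite.1 (hx.frequently h1)
    exact h2.mono fun k hk => ⟨c (z k), hz k, hk⟩
  exact @exists_topology G G _ _ τ hτ1 hfc ℚ _ _ 0 1 (fun t _ => exists_hom_rat t)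
    (fun s => by simp) a ha0 (by simp) (AddMonoidHom.id G) (fun x => ⟨x, rfl⟩) f hτ4 (by
      intro x hx
      left
      have h1 := @isOpen_compl_singleton G τ (@T2Space.t1Space G τ hτ2) x
      exact ⟨{x}ᶜ, h1, fun h => hx (by simpa using h.symm), fun h => h rfl⟩)

end Pool.Agent.Q213.PN
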